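import Mathlib

namespace Pool.Agent.Lib.Helper10.YY

/-- lower bound function for the length -/
noncomputable def Tf (lam b : ℝ) : ℕ → ℝ → ℝ
  | 0, s => |s|
  | i + 1, s => (1 - 2 * lam) * (Tf lam b i (s + b) + Tf lam b i (s - b)) / 2

/-- abstract target set -/
structure Tgt (b lam h : ℝ) (T Nd : Set (ℝ × ℝ)) : Prop where
  sub : Nd ⊆ T
  box : ∀ p ∈ T, 0 ≤ p.1 ∧ p.1 ≤ 1 ∧ 0 ≤ p.2 ∧ p.2 ≤ b * h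
  n0 : (0, 0) ∈ Nd
  nl : (lam, 0) ∈ Nd
  n1 : (1, 0) ∈ Nd
  left : ∀ p ∈ T, p.1 < lam → p = (0, 0)
  right : ∀ p ∈ T, 1 - lam < p.1 → p = (1, 0)
  lo : ∀ z, lam ≤ z → z ≤ 1 - lam → ∃ c ∈ Nd, c.2 = 0 ∧ z - 2 * h ≤ c.1 ∧ c.1 ≤ z ∧
    ∀ p ∈ T, p.1 < c.1 → p.1 ≤ c.1 - lam * h
  hi : ∀ z, lam + h ≤ z → z ≤ 1 - lam → ∃ c ∈ Nd, c.2 = b * h ∧ z - 2 * h ≤ c.1 ∧ c.1 ≤ z ∧
    ∀ p ∈ T, p.1 < c.1 → p.1 ≤ c.1 - lam * h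

/-- the aiming function -/
noncomputable def Fa (κ g δ : ℝ) (p : ℝ × ℝ) : ℝ := (g + κ * p.2) / (p.1 + δ)

/-- good parameter -/
def GoodR (T Nd : Set (ℝ × ℝ)) (κ g δ r : ℝ) : Prop :=
  (∀ p ∈ T, Fa κ g δ p < r → ∃ c ∈ Nd, c.1 ≤ p.1 ∧ Fa κ g δ c < r) ∧
  (∀ p ∈ T, Fa κ g δ p ≤ r → ∃ c ∈ Nd, c.1 ≤ p.1 ∧ Fa κ g δ c ≤ r)

end Pool.Agent.Lib.Helper10.YY
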