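import Pool.Agent.Lib.Helper10.YY.D0

namespace Pool.Agent.Lib.Helper10.YY

lemma abs_ge_quartic (a s : ℝ) (ha : 0 ≤ a) : a * s ^ 2 - 4 * a ^ 3 / 27 * s ^ 4 ≤ |s| := by
  have h1 : s ^ 2 = |s| ^ 2 := (sq_abs s).symm
  have h2 : s ^ 4 = |s| ^ 4 := by
    have : s ^ 4 = (s ^ 2) ^ 2 := by ring
    rw [this, h1]; ring
  rw [h1, h2]
  have hu : 0 ≤ |s| := abs_nonneg s
  generalize |s| = u at *
  have key : a * u - 4 / 27 * (a * u) ^ 3 ≤ 1 := by
    have hv : 0 ≤ a * u := mul_nonneg ha hu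
    generalize a * u = v at *
    -- 1 - v + 4/27 v^3 = (v - 3/2)^2 * (4/27 v + 4/9)
    have e : 1 - (v - 4 / 27 * v ^ 3) = (v - 3 / 2) ^ 2 * (4 / 27 * v + 4 / 9) := by ring
    have : 0 ≤ (v - 3 / 2) ^ 2 * (4 / 27 * v + 4 / 9) := by positivity
    linarith
  calc a * u ^ 2 - 4 * a ^ 3 / 27 * u ^ 4 = u * (a * u - 4 / 27 * (a * u) ^ 3) := by ring
    _ ≤ u * 1 := mul_le_mul_of_nonneg_left key hu
    _ = u := mul_one u

/-- the quartic lower bound -/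
noncomputable def Qf (a b : ℝ) (i : ℕ) (s : ℝ) : ℝ :=
  a * (s ^ 2 + i * b ^ 2) -
    4 * a ^ 3 / 27 * (s ^ 4 + 6 * i * b ^ 2 * s ^ 2 + (3 * (i : ℝ) ^ 2 - 2 * i) * b ^ 4)

lemma Tf_ge_Qf (a b lam : ℝ) (ha : 0 ≤ a) (hl : lam ≤ 1 / 2) (i : ℕ) :
    ∀ s, (1 - 2 * lam) ^ i * Qf a b i s ≤ Tf lam b i s := by
  induction i with
  | zero =>
    intro s
    have := abs_ge_quartic a s ha
    unfold Tf Qf
    simp only [pow_zero, one_mul, Nat.cast_zero]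
    have e : a * (s ^ 2 + 0 * b ^ 2) - 4 * a ^ 3 / 27 * (s ^ 4 + 6 * 0 * b ^ 2 * s ^ 2 +
      (3 * (0 : ℝ) ^ 2 - 2 * 0) * b ^ 4) = a * s ^ 2 - 4 * a ^ 3 / 27 * s ^ 4 := by ring
    rw [e]
    exact this
  | succ i ih =>
    intro s
    have h0 : 0 ≤ 1 - 2 * lam := by linarith
    have h1 := ih (s + b)
    have h2 := ih (s - b)
    have e : Qf a b (i + 1) s = (Qf a b i (s + b) + Qf a b i (s - b)) / 2 := by
      unfold Qf
      push_cast
      ring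
    show _ ≤ (1 - 2 * lam) * (Tf lam b i (s + b) + Tf lam b i (s - b)) / 2
    rw [e, pow_succ]
    have h3 : (1 - 2 * lam) * ((1 - 2 * lam) ^ i * Qf a b i (s + b) +
        (1 - 2 * lam) ^ i * Qf a b i (s - b)) ≤
        (1 - 2 * lam) * (Tf lam b i (s + b) + Tf lam b i (s - b)) :=
      mul_le_mul_of_nonneg_left (add_le_add h1 h2) h0
    calc (1 - 2 * lam) ^ i * (1 - 2 * lam) * ((Qf a b i (s + b) + Qf a b i (s - b)) / 2)
        = ((1 - 2 * lam) * ((1 - 2 * lam) ^ i * Qf a b i (s + b) +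
        (1 - 2 * lam) ^ i * Qf a b i (s - b))) / 2 := by ring
      _ ≤ _ := by linarith

theorem growth (b : ℝ) (hb : 0 < b) (T : ℝ) : ∃ n : ℕ, 1 ≤ n ∧ ∀ lam : ℝ, 0 ≤ lam →
    lam ≤ 1 / (4 * n) → T < Tf lam b n 0 := by
  obtain ⟨m, hm⟩ := exists_nat_gt (12 * T ^ 2 / b ^ 2)
  refine ⟨m + 1, by omega, ?_⟩
  intro lam hl0 hl1
  have hn : (12 * T ^ 2 / b ^ 2) < ((m + 1 : ℕ) : ℝ) := by push_cast; linarith
  have hn1 : (1 : ℝ) ≤ ((m + 1 : ℕ) : ℝ) := by push_cast; linarith [Nat.cast_nonneg (α := ℝ) m]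
  generalize m + 1 = n at *
  have hnpos : (0 : ℝ) < n := by linarith
  set t := √(3 / (4 * (n : ℝ))) with ht
  have ht2 : t ^ 2 = 3 / (4 * (n : ℝ)) := Real.sq_sqrt (by positivity)
  have ht0 : 0 < t := Real.sqrt_pos.2 (by positivity)
  have ha : 0 ≤ t / b := by positivity
  have hln : (n : ℝ) * lam ≤ 1 / 4 := by
    calc (n : ℝ) * lam ≤ n * (1 / (4 * n)) := mul_le_mul_of_nonneg_left hl1 hnpos.le
      _ = 1 / 4 := by field_simp
  have hlh : lam ≤ 1 / 2 := by nlinarith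
  have h1 := Tf_ge_Qf (t / b) b lam ha hlh n 0
  have h2 : (1 : ℝ) / 2 ≤ (1 - 2 * lam) ^ n := by
    have := one_add_mul_le_pow (a := -(2 * lam)) (by linarith) n
    have e : (1 : ℝ) + -(2 * lam) = 1 - 2 * lam := by ring
    rw [e] at this
    linarith
  have h3 : Qf (t / b) b n 0 = t * n * b * (1 - 4 / 27 * (t ^ 2 * (3 * n - 2))) := by
    unfold Qf
    field_simp
    ring
  have h4 : t ^ 2 * (3 * n - 2) ≤ 9 / 4 := by
    rw [ht2]
    rw [div_mul_eq_mul_div, div_le_div_iff₀ (by positivity) (by norm_num)]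
    nlinarith
  have h5 : t * n * b * (2 / 3) ≤ Qf (t / b) b n 0 := by
    rw [h3]
    apply mul_le_mul_of_nonneg_left _ (by positivity)
    linarith
  have h6 : 0 ≤ Qf (t / b) b n 0 := le_trans (by positivity) h5
  have h7 : t * n * b * (1 / 3) ≤ Tf lam b n 0 := by
    calc t * n * b * (1 / 3) = 1 / 2 * (t * n * b * (2 / 3)) := by ring
      _ ≤ 1 / 2 * Qf (t / b) b n 0 := by linarith
      _ ≤ (1 - 2 * lam) ^ n * Qf (t / b) b n 0 := mul_le_mul_of_nonneg_right h2 h6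
      _ ≤ _ := h1
  refine lt_of_lt_of_le ?_ h7
  -- (t n b)^2 = 3 n b^2 / 4 > 9 T^2
  have h8 : 9 * T ^ 2 < (t * n * b) ^ 2 := by
    have e : (t * n * b) ^ 2 = 3 / 4 * (n * b ^ 2) := by
      calc (t * n * b) ^ 2 = t ^ 2 * n ^ 2 * b ^ 2 := by ring
        _ = _ := by rw [ht2]; field_simp
    rw [e]
    rw [div_lt_iff₀ (by positivity)] at hn
    linarith
  by_contra hcon
  push Not at hcon
  have h9 : 0 ≤ t * n * b := by positivity
  have h10 : t * n * b ≤ 3 * T := by linarith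
  have : (t * n * b) ^ 2 ≤ (3 * T) ^ 2 := by
    apply pow_le_pow_left₀ h9 h10
  nlinarith

end Pool.Agent.Lib.Helper10.YY
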