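import Pool.Agent.Lib.Helper10.YY.Y3

/-!
The zigzag point sets satisfy the target assumptions `Tgt`.
-/

namespace Pool.Agent.Lib.Helper10.YY

/-- nodes and endpoints -/
def Ndz (lam b : ℝ) (N : ℕ) : Set (ℝ × ℝ) := {q | q = (0, 0) ∨ q = (1, 0) ∨ ∃ i ≤ N, q = nd lam b N i}

/-- mirror image -/
def mir (q : ℝ × ℝ) : ℝ × ℝ := (1 - q.1, q.2)

section

variable {lam b : ℝ} {N : ℕ} {C : ℕ → Set (ℝ × ℝ × ℝ)}

/-- the gap to the left of a node -/
lemma ZH.gapL (H : ZH lam b N C) (j : ℕ) (hj : j ≤ N) {p : ℝ × ℝ}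
    (hp : p ∈ pt (Zig lam b N C)) (h : p.1 < xn lam N j) :
    p.1 ≤ xn lam N j - lam * hh lam N := by
  have h0 := H.h0
  have hl := H.l0
  have hl1 := H.l1
  have hhl := H.hl
  have hlh : lam * hh lam N ≤ hh lam N := by nlinarith
  rcases zig_cases hp with rfl | rfl | ⟨i, hi, rfl⟩ | ⟨i, hi, p, hpc, rfl⟩
  · have := H.xn_lo j
    simp only
    linarith
  · exfalso
    have := H.xn_hi hj
    simp only at h
    linarith
  · have e : (nd lam b N i).1 = xn lam N i := rfl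
    rw [e] at h ⊢
    have := H.xn_add (H.lt_of_xn_lt h)
    linarith
  · have h3 := H.am_xi hi hpc
    have h4 : 0 < hh lam N * lam := mul_pos h0 hl
    have g1 : i < j := H.lt_of_xn_lt (by linarith)
    have g2 := H.xn_le (show i + 1 ≤ j from g1)
    linarith [h3.2]

/-- the gap to the right of a node -/
lemma ZH.gapR (H : ZH lam b N C) (j : ℕ) {p : ℝ × ℝ}
    (hj : j ≤ N) (hp : p ∈ pt (Zig lam b N C)) (h : xn lam N j < p.1) :
    xn lam N j + lam * hh lam N ≤ p.1 := by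
  have h0 := H.h0
  have hl := H.l0
  have hl1 := H.l1
  have hhl := H.hl
  have hlh : lam * hh lam N ≤ hh lam N := by nlinarith
  rcases zig_cases hp with rfl | rfl | ⟨i, hi, rfl⟩ | ⟨i, hi, p, hpc, rfl⟩
  · exfalso
    have := H.xn_lo j
    simp only at h
    linarith
  · have := H.xn_hi hj
    simp only
    linarith
  · have e : (nd lam b N i).1 = xn lam N i := rfl
    rw [e] at h ⊢
    have := H.xn_add (H.lt_of_xn_lt h)
    linarith
  · have h3 := H.am_xi hi hpc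
    have h4 : 0 < hh lam N * lam := mul_pos h0 hl
    have g1 : j < i + 1 := H.lt_of_xn_lt (by linarith)
    have g2 := H.xn_le (show j ≤ i by omega)
    linarith [h3.1]

lemma ZH.sel_lo (H : ZH lam b N C) {z : ℝ} (h1 : lam ≤ z) (h2 : z ≤ 1 - lam) :
    ∃ i ≤ N, i % 2 = 0 ∧ z - 2 * hh lam N ≤ xn lam N i ∧ xn lam N i ≤ z := by
  have h0 := H.h0
  rcases h2.eq_or_lt with h2 | h2
  · refine ⟨N, le_rfl, H.ev, ?_, ?_⟩
    · rw [H.xn_N]; linarith
    · rw [H.xn_N]; linarith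
  · obtain ⟨i, hi, h3, h4⟩ := H.exists_tooth h1 h2
    rw [xn_succ] at h4
    rcases Nat.mod_two_eq_zero_or_one i with h | h
    · exact ⟨i, hi.le, h, by linarith, h3⟩
    · obtain ⟨k, rfl⟩ : ∃ k, i = k + 1 := ⟨i - 1, by omega⟩
      rw [xn_succ] at h3 h4
      exact ⟨k, by omega, by omega, by linarith, by linarith⟩

lemma ZH.sel_hi (H : ZH lam b N C) {z : ℝ} (h1 : lam + hh lam N ≤ z) (h2 : z ≤ 1 - lam) :
    ∃ i ≤ N, i % 2 = 1 ∧ z - 2 * hh lam N ≤ xn lam N i ∧ xn lam N i ≤ z := by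
  have h0 := H.h0
  have hN0 := H.N0
  have hev := H.ev
  rcases h2.eq_or_lt with h2 | h2
  · obtain ⟨k, hk⟩ : ∃ k, N = k + 1 := ⟨N - 1, by omega⟩
    have h3 : xn lam N k + hh lam N = 1 - lam := by
      rw [← xn_succ, ← hk, H.xn_N]
    refine ⟨k, by omega, by omega, by linarith, by linarith⟩
  · obtain ⟨i, hi, h3, h4⟩ := H.exists_tooth (by linarith) h2
    have hi1 : 1 < i + 1 := by
      apply H.lt_of_xn_lt
      have : xn lam N 1 = lam + hh lam N := by
        have := xn_succ (lam := lam) (N := N) 0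
        rw [xn_zero] at this
        exact this
      linarith
    rw [xn_succ] at h4
    rcases Nat.mod_two_eq_zero_or_one i with h | h
    · obtain ⟨k, rfl⟩ : ∃ k, i = k + 1 := ⟨i - 1, by omega⟩
      rw [xn_succ] at h3 h4
      exact ⟨k, by omega, by omega, by linarith, by linarith⟩
    · exact ⟨i, hi.le, h, by linarith, h3⟩

lemma nd_even {i : ℕ} (h : i % 2 = 0) : nd lam b N i = (xn lam N i, 0) := by
  unfold nd yn
  rw [if_pos h]

lemma nd_odd {i : ℕ} (h : i % 2 = 1) : nd lam b N i = (xn lam N i, b * hh lam N) := by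
  unfold nd yn
  rw [if_neg (by omega)]

lemma nd_Ndz {i : ℕ} (h : i ≤ N) : nd lam b N i ∈ Ndz lam b N := Or.inr (Or.inr ⟨i, h, rfl⟩)

/-- mirror symmetry of the abscissas -/
lemma ZH.xn_mir (H : ZH lam b N C) {i : ℕ} (h : i ≤ N) : 1 - xn lam N (N - i) = xn lam N i := by
  have hN := H.hN
  unfold xn
  rw [Nat.cast_sub h]
  linear_combination (-1 : ℝ) * hN

theorem tgt_zig (H : ZH lam b N C) :
    Tgt b lam (hh lam N) (pt (Zig lam b N C)) (Ndz lam b N) := by
  have h0 := H.h0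
  have hl := H.l0
  have hl1 := H.l1
  refine ⟨?_, ?_, Or.inl rfl, ?_, Or.inr (Or.inl rfl), ?_, ?_, ?_, ?_⟩
  · rintro q (rfl | rfl | ⟨i, hi, rfl⟩)
    · exact zero_mem _
    · exact one_mem _
    · exact nd_mem hi
  · intro p hp
    have h1 := H.zbox hp
    have h2 := H.zbox' hp
    exact ⟨h2.1, h2.2, h1.1, h1.2.1⟩
  · have := nd_Ndz (lam := lam) (b := b) (N := N) (Nat.zero_le N)
    rwa [nd_even (by norm_num), xn_zero] at this
  · intro p hp h
    rcases (H.zbox hp).2.2 with rfl | rfl | h1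
    · rfl
    · simp only at h; linarith
    · linarith [h1.1]
  · intro p hp h
    rcases (H.zbox hp).2.2 with rfl | rfl | h1
    · simp only at h; linarith
    · rfl
    · linarith [h1.2]
  · intro z hz1 hz2
    obtain ⟨i, hi, hev, h3, h4⟩ := H.sel_lo hz1 hz2
    refine ⟨nd lam b N i, nd_Ndz hi, by rw [nd_even hev], h3, h4, ?_⟩
    intro p hp hlt
    exact H.gapL i hi hp hlt
  · intro z hz1 hz2
    obtain ⟨i, hi, hod, h3, h4⟩ := H.sel_hi hz1 hz2
    refine ⟨nd lam b N i, nd_Ndz hi, by rw [nd_odd hod], h3, h4, ?_⟩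
    intro p hp hlt
    exact H.gapL i hi hp hlt

theorem tgt_zig_mir (H : ZH lam b N C) :
    Tgt b lam (hh lam N) (mir '' pt (Zig lam b N C)) (mir '' Ndz lam b N) := by
  have h0 := H.h0
  have hl := H.l0
  have hl1 := H.l1
  have T := tgt_zig H
  refine ⟨Set.image_mono T.sub, ?_, ⟨(1, 0), T.n1, ?_⟩, ?_, ⟨(0, 0), T.n0, ?_⟩, ?_, ?_, ?_, ?_⟩
  · rintro p ⟨q, hq, rfl⟩
    obtain ⟨h1, h2, h3, h4⟩ := T.box q hq
    refine ⟨?_, ?_, h3, h4⟩
    · show 0 ≤ 1 - q.1
      linarith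
    · show 1 - q.1 ≤ 1
      linarith
  · unfold mir; simp
  · refine ⟨nd lam b N N, nd_Ndz le_rfl, ?_⟩
    rw [nd_even H.ev, H.xn_N]
    unfold mir; simp
  · unfold mir; simp
  · rintro p ⟨q, hq, rfl⟩ h
    have h1 : 1 - lam < q.1 := by
      change 1 - q.1 < lam at h
      linarith
    rw [T.right q hq h1]
    unfold mir; simp
  · rintro p ⟨q, hq, rfl⟩ h
    have h1 : q.1 < lam := by
      change 1 - lam < 1 - q.1 at h
      linarith
    rw [T.left q hq h1]
    unfold mir; simp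
  · intro z hz1 hz2
    obtain ⟨i, hi, hev, h3, h4⟩ := H.sel_lo hz1 hz2
    have hpar : (N - i) % 2 = 0 := by have := H.ev; omega
    have hx := H.xn_mir hi
    refine ⟨mir (nd lam b N (N - i)), ⟨_, nd_Ndz (Nat.sub_le _ _), rfl⟩, ?_, ?_, ?_, ?_⟩
    · rw [nd_even hpar]; rfl
    · show z - 2 * hh lam N ≤ 1 - xn lam N (N - i)
      rw [hx]; exact h3
    · show 1 - xn lam N (N - i) ≤ z
      rw [hx]; exact h4
    · rintro p ⟨q, hq, rfl⟩ hlt
      change 1 - q.1 < 1 - xn lam N (N - i) at hlt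
      show 1 - q.1 ≤ 1 - xn lam N (N - i) - lam * hh lam N
      have := H.gapR (N - i) (Nat.sub_le _ _) hq (by linarith)
      linarith
  · intro z hz1 hz2
    obtain ⟨i, hi, hod, h3, h4⟩ := H.sel_hi hz1 hz2
    have hpar : (N - i) % 2 = 1 := by have := H.ev; omega
    have hx := H.xn_mir hi
    refine ⟨mir (nd lam b N (N - i)), ⟨_, nd_Ndz (Nat.sub_le _ _), rfl⟩, ?_, ?_, ?_, ?_⟩
    · rw [nd_odd hpar]; rfl
    · show z - 2 * hh lam N ≤ 1 - xn lam N (N - i)
      rw [hx]; exact h3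
    · show 1 - xn lam N (N - i) ≤ z
      rw [hx]; exact h4
    · rintro p ⟨q, hq, rfl⟩ hlt
      change 1 - q.1 < 1 - xn lam N (N - i) at hlt
      show 1 - q.1 ≤ 1 - xn lam N (N - i) - lam * hh lam N
      have := H.gapR (N - i) (Nat.sub_le _ _) hq (by linarith)
      linarith

end

end Pool.Agent.Lib.Helper10.YY
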