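import Pool.Agent.Lib.Helper10.YY.Y9
import Pool.Agent.Lib.Helper10.YY.G2

namespace Pool.Agent.Lib.Helper10.YY

open Real

/-- refine an orientation window so that every relevant ray has a good slope -/
theorem refine_window {k : ℕ} (hk : 2 ≤ k) {G : ℝ → Prop} {τ0 τ1 ε ω S c : ℝ}
    (hS0 : |τ0| ≤ S) (hS1 : |τ1| ≤ S) (hε : 0 < ε) (hω : 0 < ω)
    (hτ : τ0 ≤ τ1) (hlen : (τ1 - τ0) + ε < coneAngle k)
    (hG : ∀ a, τ0 ≤ a → a + ε / 3 ≤ τ1 →
      ∃ a', a ≤ a' ∧ a' + ω ≤ a + ε / 3 ∧ ∀ τ, a' < τ → τ < a' + ω → G τ) (φ : ℝ) :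
    ∃ φ', φ ≤ φ' ∧ φ' + min (ε / 3) (ω / (1 + S ^ 2)) ≤ φ + ε ∧
      ∀ o, φ' < o → o < φ' + min (ε / 3) (ω / (1 + S ^ 2)) →
        ∀ (m : ℤ) (τ : ℝ), τ0 ≤ τ → τ ≤ τ1 → o + m * coneAngle k = arctan τ + c → G τ := by
  have hc := coneAngle_pos hk
  set ν := min (ε / 3) (ω / (1 + S ^ 2)) with hν
  have hν1 : ν ≤ ε / 3 := min_le_left _ _
  have hν2 : ν ≤ ω / (1 + S ^ 2) := min_le_right _ _
  have hA := arctan_sub_le hτ
  by_cases hex : ∃ (o0 : ℝ) (m0 : ℤ) (τ : ℝ), φ < o0 ∧ o0 < φ + ε ∧ τ0 ≤ τ ∧ τ ≤ τ1 ∧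
      o0 + m0 * coneAngle k = arctan τ + c
  · obtain ⟨o0, m0, σ, ho1, ho2, hσ1, hσ2, heq⟩ := hex
    have aσ1 := Real.arctan_mono hσ1
    have aσ2 := Real.arctan_mono hσ2
    have huniq : ∀ (o : ℝ) (m : ℤ) (τ : ℝ), φ < o → o < φ + ε → τ0 ≤ τ → τ ≤ τ1 →
        o + m * coneAngle k = arctan τ + c → m = m0 := by
      intro o m τ h1 h2 h3 h4 h5
      have b1 := Real.arctan_mono h3
      have b2 := Real.arctan_mono h4
      have e1 : (o - o0) + ((m : ℝ) - m0) * coneAngle k = arctan τ - arctan σ := by linarith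
      by_contra hne
      rcases lt_or_gt_of_ne hne with h | h
      · have : (m : ℝ) + 1 ≤ m0 := by exact_mod_cast h
        nlinarith
      · have : (m0 : ℝ) + 1 ≤ m := by exact_mod_cast h
        nlinarith
    set ψ := φ + m0 * coneAngle k - c with hψ
    by_cases h1 : ψ + ε / 3 ≤ arctan τ0
    · refine ⟨φ, le_rfl, by linarith, ?_⟩
      intro o g1 g2 m τ g3 g4 g5
      exfalso
      have := huniq o m τ g1 (by linarith) g3 g4 g5
      subst this
      have := Real.arctan_mono g3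
      linarith
    by_cases h2 : arctan τ1 ≤ ψ + 2 * ε / 3
    · refine ⟨φ + 2 * ε / 3, by linarith, by linarith, ?_⟩
      intro o g1 g2 m τ g3 g4 g5
      exfalso
      have := huniq o m τ (by linarith) (by linarith) g3 g4 g5
      subst this
      have := Real.arctan_mono g4
      linarith
    push Not at h1 h2
    have p1 := Real.arctan_lt_pi_div_two τ1
    have p2 := Real.neg_pi_div_two_lt_arctan τ0
    obtain ⟨a, ha⟩ : ∃ a, arctan a = ψ + ε / 3 :=
      ⟨tan (ψ + ε / 3), Real.arctan_tan (by linarith) (by linarith)⟩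
    obtain ⟨a2, ha2⟩ : ∃ a, arctan a = ψ + 2 * ε / 3 :=
      ⟨tan (ψ + 2 * ε / 3), Real.arctan_tan (by linarith) (by linarith)⟩
    have q1 : τ0 < a := by rw [← Real.arctan_lt_arctan_iff, ha]; exact h1
    have q2 : a2 < τ1 := by rw [← Real.arctan_lt_arctan_iff, ha2]; exact h2
    have q3 : a ≤ a2 := by rw [← Real.arctan_le_arctan_iff, ha, ha2]; linarith
    have q4 := arctan_sub_le q3
    rw [ha, ha2] at q4
    obtain ⟨a', r1, r2, r3⟩ := hG a q1.le (by linarith)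
    rw [abs_le] at hS0 hS1
    have q5 := le_arctan_sub (x := a') (y := a' + ω) (S := S) (by linarith)
      (abs_le.2 ⟨by linarith, by linarith⟩) (abs_le.2 ⟨by linarith, by linarith⟩)
    rw [show a' + ω - a' = ω by ring] at q5
    have q6 := Real.arctan_mono r1
    have q7 := Real.arctan_mono (show a' + ω ≤ a2 by linarith)
    rw [ha] at q6
    rw [ha2] at q7
    refine ⟨arctan a' - m0 * coneAngle k + c, by linarith, by linarith, ?_⟩
    intro o g1 g2 m τ g3 g4 g5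
    have := huniq o m τ (by linarith) (by linarith) g3 g4 g5
    subst this
    apply r3
    · rw [← Real.arctan_lt_arctan_iff]; linarith
    · rw [← Real.arctan_lt_arctan_iff]; linarith
  · refine ⟨φ, le_rfl, by linarith, ?_⟩
    intro o g1 g2 m τ g3 g4 g5
    exact absurd ⟨o, m, τ, g1, by linarith, g3, g4, g5⟩ hex

/-- the size of the refined window -/
noncomputable def newEps (b lam h S ε : ℝ) : ℝ :=
  min (ε / 3) (min (ε / 3 / 4) (b * lam ^ 2 * h / 4) / (1 + (S + 3 * b) ^ 2))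

lemma newEps_pos {b lam h S ε : ℝ} (hb : 0 < b) (hl : 0 < lam) (hh : 0 < h) (hε : 0 < ε) :
    0 < newEps b lam h S ε := by
  unfold newEps
  positivity

lemma newEps_le (b lam h S ε : ℝ) : newEps b lam h S ε ≤ ε / 3 := min_le_left _ _

/-- general form of the refinement -/
lemma refine_gen {k : ℕ} (hk : 2 ≤ k) {b lam h s S ε κ g δ e c : ℝ} {T Nd : Set (ℝ × ℝ)}
    (hbk : coneAngle k = 64 * b) (hb : 0 < b) (hl : 0 < lam) (hl4 : lam ≤ 1 / 4) (hh : 0 < h)
    (hhl : h ≤ lam / 4) (ht : Tgt b lam h T Nd) (hκ : κ = 1 ∨ κ = -1) (he : e = 1 ∨ e = -1)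
    (hδ : lam ≤ δ) (hδ1 : δ ≤ 1) (hg : b * lam + b * h ≤ g) (hg3 : g ≤ 3 * b) (hε : 0 < ε)
    (hεk : ε ≤ coneAngle k / 4) (hd : 40 * b * h / lam ^ 2 ≤ ε / 3) (hs : |s| ≤ S) (φ : ℝ) :
    ∃ φ', φ ≤ φ' ∧ φ' + newEps b lam h S ε ≤ φ + ε ∧
      ∀ o, φ' < o → o < φ' + newEps b lam h S ε →
        ∀ (m : ℤ) (τ : ℝ), |τ - s| ≤ 3 * b → o + m * coneAngle k = arctan τ + c →
          GoodR T Nd κ g δ (e * (τ - s) + b) := by
  rw [abs_le] at hs
  have hω : 0 < min (ε / 3 / 4) (b * lam ^ 2 * h / 4) := by positivity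
  obtain ⟨φ', h1, h2, h3⟩ := refine_window hk (G := fun τ => GoodR T Nd κ g δ (e * (τ - s) + b))
    (τ0 := s - 3 * b) (τ1 := s + 3 * b) (ε := ε) (ω := min (ε / 3 / 4) (b * lam ^ 2 * h / 4))
    (S := S + 3 * b) (c := c) (abs_le.2 ⟨by linarith, by linarith⟩)
    (abs_le.2 ⟨by linarith, by linarith⟩) hε hω (by linarith) (by linarith) (by
      intro a _ _
      rcases he with rfl | rfl
      · obtain ⟨r2, g1, g2, g3⟩ := aim hb hl hl4 hh hhl ht hκ hδ hδ1 hg hg3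
          (show 0 < ε / 3 by positivity) hd (a - s + b)
        refine ⟨r2 + s - b, by linarith, by linarith, fun τ t1 t2 => ?_⟩
        exact g3 _ (by linarith) (by linarith)
      · obtain ⟨r2, g1, g2, g3⟩ := aim hb hl hl4 hh hhl ht hκ hδ hδ1 hg hg3
          (show 0 < ε / 3 by positivity) hd (-(a + ε / 3 - s) + b)
        refine ⟨s + b - r2 - min (ε / 3 / 4) (b * lam ^ 2 * h / 4), by linarith, by linarith,
          fun τ t1 t2 => ?_⟩
        exact g3 _ (by linarith) (by linarith)) φ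
  refine ⟨φ', h1, h2, fun o o1 o2 m τ hτ heq => ?_⟩
  rw [abs_le] at hτ
  exact h3 o o1 o2 m τ (by linarith) (by linarith) heq

end Pool.Agent.Lib.Helper10.YY
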