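import Pool.Agent.Lib.Helper10.YY.Y12
import Pool.Agent.Lib.Helper10.YY.G1
import Pool.Agent.Lib.Helper10.YY.G3

namespace Pool.Agent.Lib.Helper10.YY

open Real

/-- all levels exist -/
theorem lev_all {k : ℕ} {b lam : ℝ} {N0 : ℕ} (hk : 2 ≤ k) (hbk : coneAngle k = 64 * b)
    (hb : 0 < b) (hb1 : b ≤ 1 / 8) (hl : 0 < lam) (hl1 : lam ≤ 1 / 4)
    (hN0 : 0 < N0) (hN0' : 1 / N0 ≤ lam ^ 2 / 8) (i : ℕ) :
    Lev k b lam N0 (fun C => Long C (Tf lam b i)) := by
  induction i with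
  | zero => exact lev_zero hk hbk hb hb1 hl hl1 hN0 hN0' long_empty
  | succ i ih =>
    apply lev_step hk hbk hb hb1 hl hl1 hN0 hN0' _ _ _ ih
    · intro N C H; exact tgt_zig H
    · intro N C H; exact tgt_zig_mir H
    · intro N C H hC; exact long_zig H hC

/-- the point set with its orientations -/
theorem exists_block {k : ℕ} (hk : 2 ≤ k) (T : ℝ) :
    ∃ (b lam : ℝ) (Z : Set (ℝ × ℝ × ℝ)) (f : ℝ → ℝ), coneAngle k = 64 * b ∧ 0 < b ∧ 0 < lam ∧
      Geo lam b Z ∧ (∀ x ∈ pt Z, |sl (0, 0) x| ≤ 2 * b) ∧ (∀ x ∈ pt Z, |sl (1, 0) x| ≤ 2 * b) ∧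
      (∀ p ∈ Z, ∃ o, OKv k b Z 0 o p) ∧ T < f 1 - f 0 ∧
      ∀ p ∈ pt Z, ∀ q ∈ pt Z, Cons Z p q → |f q.1 - f p.1| ≤ |q.2 - p.2| := by
  have hθ := coneAngle_pos hk
  have hθ' := coneAngle_le hk
  have hπ := Real.pi_lt_d2
  set b := coneAngle k / 64 with hbdef
  have hb : 0 < b := by positivity
  have hbk : coneAngle k = 64 * b := by rw [hbdef]; ring
  have hb1 : b ≤ 1 / 8 := by linarith
  obtain ⟨n, hn, hgrow⟩ := growth b hb T
  have hn' : (1 : ℝ) ≤ n := by exact_mod_cast hn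
  set lam : ℝ := 1 / (4 * n) with hlam
  have hl : 0 < lam := by positivity
  have hl1 : lam ≤ 1 / 4 := by
    rw [hlam]
    apply one_div_le_one_div_of_le (by norm_num)
    linarith
  have hT := hgrow lam hl.le le_rfl
  obtain ⟨m, rfl⟩ : ∃ m, n = m + 1 := ⟨n - 1, by omega⟩
  obtain ⟨N0, hN0⟩ := exists_nat_gt (8 / lam ^ 2)
  have hN0pos : (0 : ℝ) < N0 := lt_trans (by positivity) hN0
  have hN0nat : 0 < N0 := by exact_mod_cast hN0pos
  have hN0' : 1 / (N0 : ℝ) ≤ lam ^ 2 / 8 := by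
    rw [div_lt_iff₀ (by positivity)] at hN0
    rw [div_le_iff₀ hN0pos]
    nlinarith
  obtain ⟨C, ε, hL⟩ := lev_all hk hbk hb hb1 hl hl1 hN0nat hN0' m 0 le_rfl
  have H : ZH lam b (2 * N0) (fun i => C (fl i)) :=
    zh_of hb hb1 hl hl1 hN0nat hN0' (by omega) (by omega) (fun i => hL.geo _)
  have hlong := long_zig H (fun i _ => hL.long (fl i))
  obtain ⟨f, f0, f1, fT, fc⟩ := hlong 0
  refine ⟨b, lam, Zig lam b (2 * N0) (fun i => C (fl i)), f, hbk, hb, hl, H.geo_zig,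
    fun x hx => H.slope_node (Or.inl rfl) hx, fun x hx => H.slope_node (Or.inr (Or.inl rfl)) hx,
    ?_, ?_, ?_⟩
  · intro p hp
    obtain ⟨φ, hφ⟩ := hL.ok (2 * N0) (by omega) (by omega) 0 (by simp) p hp
    exact ⟨φ + ε / 2, hφ _ (by have := hL.e0; linarith) (by have := hL.e0; linarith)⟩
  · rw [f0 0 le_rfl, sub_zero]
    exact lt_of_lt_of_le hT fT
  · intro p hp q hq hc
    have := fc p hp q hq hc
    simpa using this

/-- an orientation for endpoints -/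
lemma exists_orient {k : ℕ} (hk : 2 ≤ k) : ∃ a, Avoid k a (arctan (0 + 0)) (coneAngle k / 8) := by
  have hθ := coneAngle_pos hk
  refine ⟨arctan (0 + 0) + coneAngle k / 4, exists_avoid hk _ _ (by linarith) (by linarith)⟩

/-- the main theorem in raw form -/
theorem main_raw {k : ℕ} (hk : 2 ≤ k) (t : ℝ) :
    ∃ (P : Finset ℂ) (o : ℂ → ℝ), 0 ∈ P ∧ 1 ∈ P ∧ ∀ Y YY : ℂ → ℂ → Prop,
    (∀ u v, Y u v → u ∈ P ∧ v ∈ P ∧ u ≠ v) →
    (∀ u v, Y u v → ∀ x ∈ P, x ≠ u → SameCone k (o u) (v - u) (x - u) → dist u v ≤ dist u x) →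
    (∀ u ∈ P, ∀ v ∈ P, u ≠ v → ∃ x, Y u x ∧ SameCone k (o u) (v - u) (x - u)) →
    (∀ u v, YY u v → Y u v ∧ ∀ x, Y x v → SameCone k (o v) (u - v) (x - v) →
      dist u v ≤ dist x v) →
    ∀ G : SimpleGraph ℂ, (∀ u v, G.Adj u v → YY u v ∨ YY v u) →
    ∀ p : G.Walk 0 1, t < wlen p := by
  obtain ⟨b, lam, Z, f, hbk, hb, hl, hG, hs0, hs1, hok, hT, hf⟩ := exists_block hk t
  obtain ⟨a0, ha0⟩ := exists_orient hk
  choose! O hO using hok
  classical
  have hfin : (toC '' pt Z).Finite := (pt_finite hG.fin).image _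
  set o : ℂ → ℝ := fun z => if h : ∃ p ∈ Z, p.1 = z.re then O h.choose else a0 with ho
  have hoint : ∀ p ∈ Z, o (toC (p.1, p.2.1)) = O p := by
    intro p hp
    have h : ∃ q ∈ Z, q.1 = (toC (p.1, p.2.1)).re := ⟨p, hp, rfl⟩
    have h1 : h.choose = p := hG.inj _ h.choose_spec.1 _ hp h.choose_spec.2
    rw [ho]
    simp only
    rw [dif_pos h, h1]
  have ho0 : o (toC (0, 0)) = a0 := by
    rw [ho]
    simp only
    rw [dif_neg]
    rintro ⟨p, hp, h⟩
    have := (hG.box _ hp).1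
    have h2 : (toC (0, 0)).re = 0 := rfl
    rw [h2] at h
    linarith
  have ho1 : o (toC (1, 0)) = a0 := by
    rw [ho]
    simp only
    rw [dif_neg]
    rintro ⟨p, hp, h⟩
    have := (hG.box _ hp).2.1
    have h2 : (toC (1, 0)).re = 1 := rfl
    rw [h2] at h
    linarith
  have e0 : toC (0, 0) = 0 := rfl
  have e1 : toC (1, 0) = 1 := rfl
  refine ⟨hfin.toFinset, o, ?_, ?_, ?_⟩
  · rw [Set.Finite.mem_toFinset]; exact ⟨(0, 0), zero_mem _, e0⟩
  · rw [Set.Finite.mem_toFinset]; exact ⟨(1, 0), one_mem _, e1⟩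
  intro Y YY hY0 hY1 hY2 hYY G hGadj p
  simp only [Set.Finite.mem_toFinset] at hY0 hY1 hY2
  have hkill : ∀ u v, YY u v → ∃ p ∈ pt Z, ∃ q ∈ pt Z, u = toC p ∧ v = toC q ∧ Cons Z p q := by
    intro u v huv
    exact kill hk hbk hb hl hG hs0 hs1 (fun p hp => by rw [hoint p hp]; exact hO p hp)
      (by rw [ho0]; exact ha0) (by rw [ho1]; exact ha0) hY0 hY1 hY2 hYY huv
  have hedge : ∀ u v, G.Adj u v → |f v.re - f u.re| ≤ dist u v := by
    have key : ∀ p ∈ pt Z, ∀ q ∈ pt Z, Cons Z p q →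
        |f (toC q).re - f (toC p).re| ≤ dist (toC p) (toC q) := by
      intro p hp q hq hc
      have h1 := hf p hp q hq hc
      have h2 : |q.2 - p.2| ≤ dist (toC p) (toC q) := by
        rw [dist_comm, dist_eq_norm]
        have := Complex.abs_im_le_norm (toC q - toC p)
        exact this
      exact h1.trans h2
    intro u v huv
    rcases hGadj u v huv with h | h
    · obtain ⟨p, hp, q, hq, rfl, rfl, hc⟩ := hkill _ _ h
      exact key p hp q hq hc
    · obtain ⟨p, hp, q, hq, rfl, rfl, hc⟩ := hkill _ _ h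
      rw [abs_sub_comm, dist_comm]
      exact key p hp q hq hc
  have h1 := walk_long (f := fun z => f z.re) hedge p
  simp only [Complex.one_re, Complex.zero_re] at h1
  have h2 := le_abs_self (f 1 - f 0)
  linarith

end Pool.Agent.Lib.Helper10.YY
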