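import Pool.Agent.Lib.Helper10.YY.D0
import Pool.Agent.Lib.Helper10.YY.Y1

namespace Pool.Agent.Lib.Helper10.YY

/-- displacement under the shear `s` -/
def dv (s : ℝ) (p q : ℝ × ℝ) : ℂ := ⟨q.1 - p.1, (q.2 - p.2) + s * (q.1 - p.1)⟩

/-- squared distance under the shear `s` -/
def d2 (s : ℝ) (p q : ℝ × ℝ) : ℝ := (q.1 - p.1) ^ 2 + ((q.2 - p.2) + s * (q.1 - p.1)) ^ 2

/-- slope -/
noncomputable def sl (p q : ℝ × ℝ) : ℝ := (q.2 - p.2) / (q.1 - p.1)

lemma norm_dv (s : ℝ) (p q : ℝ × ℝ) : ‖dv s p q‖ ^ 2 = d2 s p q := by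
  rw [Complex.sq_norm, Complex.normSq_apply]
  unfold dv d2
  ring

lemma d2_comm (s : ℝ) (p q : ℝ × ℝ) : d2 s p q = d2 s q p := by unfold d2; ring

lemma sl_comm (p q : ℝ × ℝ) : sl p q = sl q p := by
  unfold sl
  rw [← neg_div_neg_eq]
  congr 1 <;> ring

lemma d2_eq {s : ℝ} {p q : ℝ × ℝ} (h : q.1 ≠ p.1) :
    d2 s p q = (q.1 - p.1) ^ 2 * (1 + (s + sl p q) ^ 2) := by
  unfold d2 sl
  have : q.1 - p.1 ≠ 0 := sub_ne_zero.2 h
  field_simp
  ring

lemma dv_re (s : ℝ) (p q : ℝ × ℝ) : (dv s p q).re = q.1 - p.1 := rfl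

lemma dv_ratio {s : ℝ} {p q : ℝ × ℝ} (h : q.1 ≠ p.1) :
    (dv s p q).im / (dv s p q).re = s + sl p q := by
  unfold dv sl
  have : q.1 - p.1 ≠ 0 := sub_ne_zero.2 h
  simp only
  field_simp
  ring

lemma dist_lemma {s : ℝ} {p q r : ℝ × ℝ} (h : 0 < (q.1 - p.1) * (r.1 - q.1))
    (hs : |sl p q - sl q r| < 2) : d2 s p q < d2 s p r := by
  have h1 : q.1 - p.1 ≠ 0 := fun h0 => by rw [h0] at h; simp at h
  have h2 : r.1 - q.1 ≠ 0 := fun h0 => by rw [h0] at h; simp at h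
  have e1 : q.2 - p.2 = sl p q * (q.1 - p.1) := by unfold sl; field_simp
  have e2 : r.2 - q.2 = sl q r * (r.1 - q.1) := by unfold sl; field_simp
  have e3 : r.2 - p.2 = sl p q * (q.1 - p.1) + sl q r * (r.1 - q.1) := by linarith
  have e4 : r.1 - p.1 = (q.1 - p.1) + (r.1 - q.1) := by ring
  unfold d2
  rw [e3, e1, e4]
  generalize q.1 - p.1 = a at *
  generalize r.1 - q.1 = c at *
  generalize sl p q = m at *
  generalize sl q r = m' at *
  rw [abs_lt] at hs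
  have k1 : 0 < (2 - (m - m')) * (2 + (m - m')) :=
    mul_pos (by linarith [hs.2]) (by linarith [hs.1])
  have key : 0 < 1 + (s + m) * (s + m') := by nlinarith [sq_nonneg (2 * s + m + m'), k1]
  have hc : 0 < c ^ 2 := by positivity
  have e : (a + c) ^ 2 + (m * a + m' * c + s * (a + c)) ^ 2 - (a ^ 2 + (m * a + s * a) ^ 2) =
      c ^ 2 * (1 + (s + m') ^ 2) + 2 * ((a * c) * (1 + (s + m) * (s + m'))) := by ring
  have k2 : 0 < c ^ 2 * (1 + (s + m') ^ 2) := by positivity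
  have k3 : 0 < (a * c) * (1 + (s + m) * (s + m')) := mul_pos h key
  linarith

/-- mediant bound for slopes -/
lemma sl_between {p q r : ℝ × ℝ} {m : ℝ} (h : 0 < (q.1 - p.1) * (r.1 - q.1))
    (h1 : |sl p q| ≤ m) (h2 : |sl q r| ≤ m) : |sl p r| ≤ m := by
  have a1 : q.1 - p.1 ≠ 0 := fun h0 => by rw [h0] at h; simp at h
  have a2 : r.1 - q.1 ≠ 0 := fun h0 => by rw [h0] at h; simp at h
  have e1 : q.2 - p.2 = sl p q * (q.1 - p.1) := by unfold sl; field_simp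
  have e2 : r.2 - q.2 = sl q r * (r.1 - q.1) := by unfold sl; field_simp
  have e3 : r.2 - p.2 = sl p q * (q.1 - p.1) + sl q r * (r.1 - q.1) := by linarith
  have e4 : r.1 - p.1 = (q.1 - p.1) + (r.1 - q.1) := by ring
  have e5 : sl p r = (sl p q * (q.1 - p.1) + sl q r * (r.1 - q.1)) / ((q.1 - p.1) + (r.1 - q.1)) := by
    show (r.2 - p.2) / (r.1 - p.1) = _
    rw [e3, e4]
  rw [e5]
  generalize q.1 - p.1 = a at *
  generalize r.1 - q.1 = c at *
  generalize sl p q = u at *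
  generalize sl q r = w at *
  have hac : a + c ≠ 0 := by
    intro h0
    have : c = -a := by linarith
    rw [this] at h
    nlinarith [sq_nonneg a]
  rw [abs_div, div_le_iff₀ (abs_pos.2 hac)]
  have h3 : |a + c| = |a| + |c| := by
    rcases lt_or_gt_of_ne a1 with ha | ha
    · have hc : c < 0 := by
        by_contra hcon
        push Not at hcon
        nlinarith
      rw [abs_of_neg ha, abs_of_neg hc, abs_of_neg (by linarith)]
      ring
    · have hc : 0 < c := by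
        by_contra hcon
        push Not at hcon
        nlinarith
      rw [abs_of_pos ha, abs_of_pos hc, abs_of_pos (by linarith)]
  rw [h3]
  calc |u * a + w * c| ≤ |u * a| + |w * c| := abs_add_le _ _
    _ = |u| * |a| + |w| * |c| := by rw [abs_mul, abs_mul]
    _ ≤ m * |a| + m * |c| := by
        have := abs_nonneg a
        have := abs_nonneg c
        gcongr
    _ = m * (|a| + |c|) := by ring

/-- the points of a block with interior `C` -/
def pt (C : Set (ℝ × ℝ × ℝ)) : Set (ℝ × ℝ) := {q | q = (0, 0) ∨ q = (1, 0) ∨ ∃ σ, (q.1, q.2, σ) ∈ C}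

/-- consecutive abscissas -/
def Cons (C : Set (ℝ × ℝ × ℝ)) (v u : ℝ × ℝ) : Prop :=
  v.1 ≠ u.1 ∧ ∀ x ∈ pt C, ¬ (v.1 < x.1 ∧ x.1 < u.1) ∧ ¬ (u.1 < x.1 ∧ x.1 < v.1)

lemma Cons.symm {C : Set (ℝ × ℝ × ℝ)} {v u : ℝ × ℝ} (h : Cons C v u) : Cons C u v :=
  ⟨h.1.symm, fun x hx => ⟨(h.2 x hx).2, (h.2 x hx).1⟩⟩

/-- geometric invariants of a block -/
structure Geo (lam b : ℝ) (C : Set (ℝ × ℝ × ℝ)) : Prop where
  fin : C.Finite
  box : ∀ p ∈ C, lam ≤ p.1 ∧ p.1 ≤ 1 - lam ∧ 0 ≤ p.2.1 ∧ p.2.1 ≤ b * lam ^ 2 / 8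
  inj : ∀ p ∈ C, ∀ q ∈ C, p.1 = q.1 → p = q
  nearR : ∀ s, ∀ v ∈ pt C, ∀ u ∈ pt C, ∀ w ∈ pt C, Cons C v u → v.1 < u.1 → u.1 < w.1 →
    d2 s v u < d2 s v w
  nearL : ∀ s, ∀ v ∈ pt C, ∀ u ∈ pt C, ∀ w ∈ pt C, Cons C v u → u.1 < v.1 → w.1 < u.1 →
    d2 s v u < d2 s v w
  edge : ∀ s, ∀ p ∈ C, ∀ w ∈ pt C, Cons C (p.1, p.2.1) w →
    d2 s (p.1, p.2.1) w ≤ d2 s (p.1, p.2.1) (0, 0) ∧ d2 s (p.1, p.2.1) w ≤ d2 s (p.1, p.2.1) (1, 0)
  lab : ∀ p ∈ C, ∀ u ∈ pt C, Cons C (p.1, p.2.1) u → |sl (p.1, p.2.1) u - p.2.2| ≤ 3 * b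

section zig

variable (lam b : ℝ) (N : ℕ)

/-- tooth width -/
noncomputable def hh : ℝ := (1 - 2 * lam) / N

/-- sign of a tooth -/
def sg (i : ℕ) : ℝ := if i % 2 = 0 then 1 else -1

/-- node abscissa -/
noncomputable def xn (i : ℕ) : ℝ := lam + i * hh lam N

/-- node ordinate -/
noncomputable def yn (i : ℕ) : ℝ := if i % 2 = 0 then 0 else b * hh lam N

/-- node -/
noncomputable def nd (i : ℕ) : ℝ × ℝ := (xn lam N i, yn lam b N i)

/-- affine map of tooth `i` -/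
noncomputable def am (i : ℕ) (p : ℝ × ℝ) : ℝ × ℝ :=
  (xn lam N i + hh lam N * p.1, yn lam b N i + hh lam N * (p.2 + sg i * b * p.1))

/-- the zigzag -/
def Zig (C : ℕ → Set (ℝ × ℝ × ℝ)) : Set (ℝ × ℝ × ℝ) :=
  {q | (∃ i ≤ N, q = ((nd lam b N i).1, (nd lam b N i).2, 0)) ∨
    ∃ i < N, ∃ p ∈ C i, q = ((am lam b N i (p.1, p.2.1)).1, (am lam b N i (p.1, p.2.1)).2,
      p.2.2 + sg i * b)}

lemma sg_abs (i : ℕ) : |sg i| = 1 := by
  unfold sg; split_ifs <;> simp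

lemma sg_sq (i : ℕ) : sg i * sg i = 1 := by
  unfold sg; split_ifs <;> norm_num

lemma sg_or (i : ℕ) : sg i = 1 ∨ sg i = -1 := by
  unfold sg; split_ifs <;> simp

lemma sg_succ (i : ℕ) : sg (i + 1) = - sg i := by
  unfold sg
  rcases Nat.mod_two_eq_zero_or_one i with h | h
  · rw [if_neg (by omega), if_pos h]
  · rw [if_pos (by omega), if_neg (by omega)]; norm_num

lemma am_zero (i : ℕ) : am lam b N i (0, 0) = nd lam b N i := by
  unfold am nd; simp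

lemma yn_succ (i : ℕ) : yn lam b N (i + 1) = yn lam b N i + sg i * b * hh lam N := by
  unfold yn sg
  rcases Nat.mod_two_eq_zero_or_one i with h | h
  · rw [if_neg (by omega), if_pos h, if_pos h]; ring
  · rw [if_pos (by omega), if_neg (by omega), if_neg (by omega)]; ring

lemma am_one (i : ℕ) : am lam b N i (1, 0) = nd lam b N (i + 1) := by
  unfold am nd
  rw [yn_succ]
  unfold xn
  ext
  · push_cast; ring
  · simp; ring

lemma d2_am (s : ℝ) (i : ℕ) (p q : ℝ × ℝ) :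
    d2 s (am lam b N i p) (am lam b N i q) = hh lam N ^ 2 * d2 (s + sg i * b) p q := by
  unfold d2 am; ring

lemma dv_am (s : ℝ) (i : ℕ) (p q : ℝ × ℝ) :
    dv s (am lam b N i p) (am lam b N i q) = (hh lam N : ℂ) * dv (s + sg i * b) p q := by
  unfold dv am
  apply Complex.ext
  · simp; ring
  · simp; ring

lemma sl_am {i : ℕ} {p q : ℝ × ℝ} (hh0 : hh lam N ≠ 0) (h : q.1 ≠ p.1) :
    sl (am lam b N i p) (am lam b N i q) = sl p q + sg i * b := by
  unfold sl am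
  have : q.1 - p.1 ≠ 0 := sub_ne_zero.2 h
  simp only
  rw [show xn lam N i + hh lam N * q.1 - (xn lam N i + hh lam N * p.1) = hh lam N * (q.1 - p.1) by ring,
    show yn lam b N i + hh lam N * (q.2 + sg i * b * q.1) -
      (yn lam b N i + hh lam N * (p.2 + sg i * b * p.1)) =
      hh lam N * ((q.2 - p.2) + sg i * b * (q.1 - p.1)) by ring]
  rw [mul_div_mul_left _ _ hh0]
  field_simp

end zig

end Pool.Agent.Lib.Helper10.YY
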