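import Pool.Agent.Lib.Helper10.YY.Y3

namespace Pool.Agent.Lib.Helper10.YY

section

variable {lam b : ℝ} {N : ℕ} {C : ℕ → Set (ℝ × ℝ × ℝ)}

/-- slopes seen from the left endpoint of a block -/
lemma Geo.slope0 {C : Set (ℝ × ℝ × ℝ)} (hb : 0 < b) (hl : 0 < lam) (hl1 : lam ≤ 1 / 4)
    (hg : Geo lam b C) {q : ℝ × ℝ} (hq : q ∈ pt C) : |sl (0, 0) q| ≤ b := by
  unfold sl
  simp only [sub_zero]
  rcases hq with rfl | rfl | ⟨σ, hq⟩
  · simp [hb.le]
  · simp [hb.le]
  · have := hg.box _ hq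
    simp only at this
    obtain ⟨h1, h2, h3, h4⟩ := this
    have h5 : 0 < q.1 := by linarith
    rw [abs_div, abs_of_nonneg h3, abs_of_pos h5, div_le_iff₀ h5]
    have h6 : b * lam ≤ b * q.1 := mul_le_mul_of_nonneg_left h1 hb.le
    nlinarith [mul_pos hb hl]

/-- slopes seen from the right endpoint of a block -/
lemma Geo.slope1 {C : Set (ℝ × ℝ × ℝ)} (hb : 0 < b) (hl : 0 < lam) (hl1 : lam ≤ 1 / 4)
    (hg : Geo lam b C) {q : ℝ × ℝ} (hq : q ∈ pt C) : |sl (1, 0) q| ≤ b := by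
  unfold sl
  simp only [sub_zero]
  rcases hq with rfl | rfl | ⟨σ, hq⟩
  · simp [hb.le]
  · simp [hb.le]
  · have := hg.box _ hq
    simp only at this
    obtain ⟨h1, h2, h3, h4⟩ := this
    have h5 : q.1 - 1 < 0 := by linarith
    rw [abs_div, abs_of_nonneg h3, abs_of_neg h5, div_le_iff₀ (by linarith)]
    have h6 : b * lam ≤ b * (1 - q.1) := mul_le_mul_of_nonneg_left (by linarith) hb.le
    nlinarith [mul_pos hb hl]

/-- the special points of a zigzag -/
def IsNode (lam b : ℝ) (N : ℕ) (P : ℝ × ℝ) : Prop :=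
  P = (0, 0) ∨ P = (1, 0) ∨ ∃ i ≤ N, P = nd lam b N i

lemma IsNode.mem {P : ℝ × ℝ} (h : IsNode lam b N P) : P ∈ pt (Zig lam b N C) := by
  rcases h with rfl | rfl | ⟨i, hi, rfl⟩
  · exact zero_mem _
  · exact one_mem _
  · exact nd_mem hi

lemma isNode_nd {i : ℕ} (h : i ≤ N) : IsNode lam b N (nd lam b N i) := Or.inr (Or.inr ⟨i, h, rfl⟩)

lemma slope_big {P x : ℝ × ℝ} {c h : ℝ} (hc : 0 ≤ c) (hh : 0 < h)
    (h1 : h ≤ |x.1 - P.1|) (h2 : |x.2 - P.2| ≤ c * h) : |sl P x| ≤ c := by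
  unfold sl
  rw [abs_div, div_le_iff₀ (by linarith)]
  nlinarith

/-- slopes seen from special points -/
lemma ZH.slope_node (H : ZH lam b N C) {P x : ℝ × ℝ} (hP : IsNode lam b N P)
    (hx : x ∈ pt (Zig lam b N C)) : |sl P x| ≤ 2 * b := by
  have h0 := H.h0
  have hb := H.b0
  have hl := H.l0
  have hl1 := H.l1
  have hhl := H.hl
  have hP' := H.zbox (hP.mem (C := C))
  have hx' := H.zbox hx
  have hy : |x.2 - P.2| ≤ b * hh lam N := by
    rw [abs_le]
    constructor <;> linarith [hP'.1, hP'.2.1, hx'.1, hx'.2.1]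
  rcases le_or_gt (hh lam N) |x.1 - P.1| with hbig | hsmall
  · have := slope_big (P := P) (x := x) hb.le h0 hbig hy
    linarith
  · rw [abs_lt] at hsmall
    rcases hP with rfl | rfl | ⟨i, hi, rfl⟩
    · rcases hx'.2.2 with rfl | rfl | h3
      · unfold sl; simp; linarith
      · unfold sl; simp; linarith
      · exfalso
        simp only at hsmall
        linarith [h3.1, hsmall.2]
    · rcases hx'.2.2 with rfl | rfl | h3
      · unfold sl; simp; linarith
      · unfold sl; simp; linarith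
      · exfalso
        simp only at hsmall
        linarith [h3.2, hsmall.1]
    · have e : (nd lam b N i).1 = xn lam N i := rfl
      rw [e] at hsmall
      have hx0 := H.xn_lo i
      have hx1 := H.xn_hi hi
      rcases lt_trichotomy x.1 (xn lam N i) with hlt | heq | hgt
      · have hlow : lam ≤ x.1 := by
          rcases hx'.2.2 with rfl | rfl | h3
          · exfalso; simp only at hsmall; linarith [hsmall.1]
          · exfalso; simp only at hlt; linarith
          · exact h3.1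
        have hi0 : i ≠ 0 := by
          rintro rfl
          rw [xn_zero] at hlt
          linarith
        obtain ⟨j, rfl⟩ := Nat.exists_eq_succ_of_ne_zero hi0
        simp only [Nat.succ_eq_add_one] at *
        have hj : j < N := by omega
        have h4 := xn_succ (lam := lam) (N := N) j
        obtain ⟨q, hq, rfl⟩ := H.tooth_mem hj hx (by linarith [hsmall.1]) hlt.le
        rw [← am_one]
        by_cases hq1 : q.1 = 1
        · exfalso
          rw [am_fst, hq1, h4] at hlt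
          linarith
        rw [sl_am lam b N h0.ne' hq1]
        have h5 := (H.geo j hj).slope1 hb hl hl1 hq
        have h6 : |sg j * b| = b := by rw [abs_mul, sg_abs, one_mul, abs_of_pos hb]
        calc |sl (1, 0) q + sg j * b| ≤ |sl (1, 0) q| + |sg j * b| := abs_add_le _ _
          _ ≤ 2 * b := by rw [h6]; linarith
      · unfold sl
        rw [e, heq]
        simp
        linarith
      · have hhigh : x.1 ≤ 1 - lam := by
          rcases hx'.2.2 with rfl | rfl | h3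
          · exfalso; simp only at hgt; linarith
          · exfalso; simp only at hsmall; linarith [hsmall.2]
          · exact h3.2
        have hiN : i < N := by
          rcases lt_or_eq_of_le hi with h | h
          · exact h
          · exfalso
            rw [h, H.xn_N] at hgt
            linarith
        have h4 := xn_succ (lam := lam) (N := N) i
        obtain ⟨q, hq, rfl⟩ := H.tooth_mem hiN hx hgt.le (by linarith [hsmall.2])
        rw [← am_zero]
        by_cases hq1 : q.1 = 0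
        · exfalso
          rw [am_fst, hq1] at hgt
          linarith
        rw [sl_am lam b N h0.ne' hq1]
        have h5 := (H.geo i hiN).slope0 hb hl hl1 hq
        have h6 : |sg i * b| = b := by rw [abs_mul, sg_abs, one_mul, abs_of_pos hb]
        calc |sl (0, 0) q + sg i * b| ≤ |sl (0, 0) q| + |sg i * b| := abs_add_le _ _
          _ ≤ 2 * b := by rw [h6]; linarith

/-- a special point in between is nearer -/
lemma ZH.far (H : ZH lam b N C) {s : ℝ} {v P x : ℝ × ℝ} (hv : v ∈ pt (Zig lam b N C))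
    (hP : IsNode lam b N P) (hx : x ∈ pt (Zig lam b N C)) (h : 0 < (P.1 - v.1) * (x.1 - P.1)) :
    d2 s v P < d2 s v x := by
  apply dist_lemma h
  have h1 := H.slope_node hP hv
  have h2 := H.slope_node hP hx
  rw [sl_comm] at h1
  have h3 := H.b1
  calc |sl v P - sl P x| ≤ |sl v P| + |sl P x| := abs_sub _ _
    _ < 2 := by linarith

lemma pt_finite {C : Set (ℝ × ℝ × ℝ)} (h : C.Finite) : (pt C).Finite := by
  have h1 : ((fun p : ℝ × ℝ × ℝ => (p.1, p.2.1)) '' C).Finite := h.image _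
  apply ((Set.finite_singleton ((0 : ℝ), (0 : ℝ))).union
    ((Set.finite_singleton ((1 : ℝ), (0 : ℝ))).union h1)).subset
  intro q hq
  rcases hq with rfl | rfl | ⟨σ, hq⟩
  · exact Or.inl rfl
  · exact Or.inr (Or.inl rfl)
  · exact Or.inr (Or.inr ⟨_, hq, rfl⟩)

/-- a consecutive point to the right exists -/
lemma exists_consR {C : Set (ℝ × ℝ × ℝ)} (hf : C.Finite) {v w : ℝ × ℝ} (hw : w ∈ pt C)
    (h : v.1 < w.1) : ∃ u ∈ pt C, Cons C v u ∧ v.1 < u.1 ∧ u.1 ≤ w.1 := by
  have h1 : {x ∈ pt C | v.1 < x.1}.Finite := (pt_finite hf).subset (Set.sep_subset _ _)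
  obtain ⟨u, hu, hmin⟩ := Set.exists_min_image _ (fun x => x.1) h1 ⟨w, hw, h⟩
  refine ⟨u, hu.1, ⟨hu.2.ne, fun x hx => ⟨?_, ?_⟩⟩, hu.2, hmin w ⟨hw, h⟩⟩
  · rintro ⟨a1, a2⟩
    have := hmin x ⟨hx, a1⟩
    linarith
  · rintro ⟨a1, a2⟩
    linarith [hu.2]

/-- a consecutive point to the left exists -/
lemma exists_consL {C : Set (ℝ × ℝ × ℝ)} (hf : C.Finite) {v w : ℝ × ℝ} (hw : w ∈ pt C)
    (h : w.1 < v.1) : ∃ u ∈ pt C, Cons C v u ∧ u.1 < v.1 ∧ w.1 ≤ u.1 := by
  have h1 : {x ∈ pt C | x.1 < v.1}.Finite := (pt_finite hf).subset (Set.sep_subset _ _)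
  obtain ⟨u, hu, hmax⟩ := Set.exists_max_image _ (fun x => x.1) h1 ⟨w, hw, h⟩
  refine ⟨u, hu.1, ⟨hu.2.ne', fun x hx => ⟨?_, ?_⟩⟩, hu.2, hmax w ⟨hw, h⟩⟩
  · rintro ⟨a1, a2⟩
    linarith [hu.2]
  · rintro ⟨a1, a2⟩
    have := hmax x ⟨hx, a2⟩
    linarith

/-- consecutive points in a tooth are consecutive in the zigzag -/
lemma ZH.cons_am (H : ZH lam b N C) {i : ℕ} (hi : i < N) {v u : ℝ × ℝ} (hv : v ∈ pt (C i))
    (hu : u ∈ pt (C i)) (h : Cons (C i) v u) :
    Cons (Zig lam b N C) (am lam b N i v) (am lam b N i u) := by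
  have h0 := H.h0
  have av := H.am_x hi hv
  have au := H.am_x hi hu
  refine ⟨fun he => h.1 ?_, fun x hx => ⟨?_, ?_⟩⟩
  · rw [am_fst, am_fst] at he
    exact mul_left_cancel₀ h0.ne' (add_left_cancel he)
  · rintro ⟨a1, a2⟩
    obtain ⟨q, hq, rfl⟩ := H.tooth_mem hi hx (by linarith [av.1]) (by linarith [au.2])
    rw [am_fst, am_fst] at a1 a2
    exact (h.2 q hq).1 ⟨by nlinarith, by nlinarith⟩
  · rintro ⟨a1, a2⟩
    obtain ⟨q, hq, rfl⟩ := H.tooth_mem hi hx (by linarith [au.1]) (by linarith [av.2])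
    rw [am_fst, am_fst] at a1 a2
    exact (h.2 q hq).2 ⟨by nlinarith, by nlinarith⟩

/-- and conversely -/
lemma ZH.am_cons (H : ZH lam b N C) {i : ℕ} (hi : i < N) {v u : ℝ × ℝ}
    (h : Cons (Zig lam b N C) (am lam b N i v) (am lam b N i u)) : Cons (C i) v u := by
  have h0 := H.h0
  refine ⟨fun he => h.1 ?_, fun x hx => ⟨?_, ?_⟩⟩
  · rw [am_fst, am_fst, he]
  · rintro ⟨a1, a2⟩
    apply (h.2 _ (am_mem hi hx)).1
    rw [am_fst, am_fst, am_fst]
    exact ⟨by nlinarith, by nlinarith⟩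
  · rintro ⟨a1, a2⟩
    apply (h.2 _ (am_mem hi hx)).2
    rw [am_fst, am_fst, am_fst]
    exact ⟨by nlinarith, by nlinarith⟩

/-- a point consecutive to a point strictly inside a tooth is in the tooth -/
lemma ZH.cons_tooth (H : ZH lam b N C) {i : ℕ} (hi : i < N) {v u : ℝ × ℝ}
    (hu : u ∈ pt (Zig lam b N C)) (h1 : 0 < v.1) (h2 : v.1 < 1)
    (h : Cons (Zig lam b N C) (am lam b N i v) u) :
    ∃ u' ∈ pt (C i), u = am lam b N i u' ∧ Cons (C i) v u' := by
  have h0 := H.h0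
  have e1 : xn lam N i < (am lam b N i v).1 := by
    rw [am_fst]; nlinarith
  have e2 : (am lam b N i v).1 < xn lam N (i + 1) := by
    rw [am_fst, xn_succ]; nlinarith
  have g1 : xn lam N i ≤ u.1 := by
    by_contra hc
    push Not at hc
    exact (h.2 _ (nd_mem hi.le)).2 ⟨hc, e1⟩
  have g2 : u.1 ≤ xn lam N (i + 1) := by
    by_contra hc
    push Not at hc
    exact (h.2 _ (nd_mem (i := i + 1) hi)).1 ⟨e2, hc⟩
  obtain ⟨q, hq, rfl⟩ := H.tooth_mem hi hu g1 g2
  exact ⟨q, hq, rfl, H.am_cons hi h⟩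

lemma pinj_aux {C : Set (ℝ × ℝ × ℝ)} (hl : 0 < lam)
    (hbox : ∀ p ∈ C, lam ≤ p.1 ∧ p.1 ≤ 1 - lam)
    (hinj : ∀ p ∈ C, ∀ q ∈ C, p.1 = q.1 → p = q) {p q : ℝ × ℝ}
    (hp : p ∈ pt C) (hq : q ∈ pt C) (h : p.1 = q.1) : p = q := by
  rcases hp with rfl | rfl | ⟨σ, hp⟩
  · rcases hq with rfl | rfl | ⟨τ, hq⟩
    · rfl
    · simp at h
    · have := hbox _ hq
      simp only at this h
      linarith [this.1]
  · rcases hq with rfl | rfl | ⟨τ, hq⟩
    · simp at h
    · rfl
    · have := hbox _ hq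
      simp only at this h
      linarith [this.2]
  · rcases hq with rfl | rfl | ⟨τ, hq⟩
    · have := hbox _ hp
      simp only at this h
      linarith [this.1]
    · have := hbox _ hp
      simp only at this h
      linarith [this.2]
    · have := hinj _ hp _ hq h
      ext
      · exact h
      · have h2 := congrArg (fun t => t.2.1) this
        exact h2

lemma ZH.zig_box (H : ZH lam b N C) {p : ℝ × ℝ × ℝ} (hp : p ∈ Zig lam b N C) :
    lam ≤ p.1 ∧ p.1 ≤ 1 - lam ∧ 0 ≤ p.2.1 ∧ p.2.1 ≤ b * hh lam N := by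
  rcases hp with ⟨i, hi, rfl⟩ | ⟨i, hi, p, hp, rfl⟩
  · exact ⟨H.xn_lo i, H.xn_hi hi, (H.yn_bd i).1, (H.yn_bd i).2⟩
  · have h1 := H.am_y hi (int_mem hp)
    have h2 := H.am_x hi (int_mem hp)
    exact ⟨(H.xn_lo i).trans h2.1, h2.2.trans (H.xn_hi hi), h1.1, h1.2⟩

lemma ZH.zig_inj (H : ZH lam b N C) {p q : ℝ × ℝ × ℝ} (hp : p ∈ Zig lam b N C)
    (hq : q ∈ Zig lam b N C) (h : p.1 = q.1) : p = q := by
  have h0 := H.h0
  have h00 : 0 < hh lam N * lam := mul_pos h0 H.l0
  rcases hp with ⟨i, hi, rfl⟩ | ⟨i, hi, p, hp, rfl⟩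
  · rcases hq with ⟨j, hj, rfl⟩ | ⟨j, hj, q, hq, rfl⟩
    · have h1 : xn lam N i = xn lam N j := h
      have h2 : i = j := by
        rcases lt_trichotomy i j with h3 | h3 | h3
        · have := H.xn_lt h3; linarith
        · exact h3
        · have := H.xn_lt h3; linarith
      rw [h2]
    · exfalso
      have h1 : xn lam N i = (am lam b N j (q.1, q.2.1)).1 := h
      have h2 := H.am_xi hj hq
      have g1 : j < i := H.lt_of_xn_lt (by linarith)
      have g2 : i < j + 1 := H.lt_of_xn_lt (by linarith)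
      omega
  · rcases hq with ⟨j, hj, rfl⟩ | ⟨j, hj, q, hq, rfl⟩
    · exfalso
      have h1 : (am lam b N i (p.1, p.2.1)).1 = xn lam N j := h
      have h2 := H.am_xi hi hp
      have g1 : i < j := H.lt_of_xn_lt (by linarith)
      have g2 : j < i + 1 := H.lt_of_xn_lt (by linarith)
      omega
    · have h1 : (am lam b N i (p.1, p.2.1)).1 = (am lam b N j (q.1, q.2.1)).1 := h
      have h2 := H.am_xi hi hp
      have h3 := H.am_xi hj hq
      have g1 : i < j + 1 := H.lt_of_xn_lt (by linarith)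
      have g2 : j < i + 1 := H.lt_of_xn_lt (by linarith)
      have g3 : i = j := by omega
      subst g3
      rw [am_fst, am_fst] at h1
      have h4 : p.1 = q.1 := mul_left_cancel₀ h0.ne' (add_left_cancel h1)
      rw [(H.geo i hi).inj p hp q hq h4]

lemma ZH.zinj (H : ZH lam b N C) {p q : ℝ × ℝ} (hp : p ∈ pt (Zig lam b N C))
    (hq : q ∈ pt (Zig lam b N C)) (h : p.1 = q.1) : p = q :=
  pinj_aux H.l0 (fun _ hp => ⟨(H.zig_box hp).1, (H.zig_box hp).2.1⟩)
    (fun _ hp _ hq => H.zig_inj hp hq) hp hq h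

/-- consecutive pairs of the zigzag -/
lemma ZH.cons_cases (H : ZH lam b N C) {v u : ℝ × ℝ} (hv : v ∈ pt (Zig lam b N C))
    (hu : u ∈ pt (Zig lam b N C)) (hc : Cons (Zig lam b N C) v u) (hlt : v.1 < u.1) :
    (v = (0, 0) ∧ u = nd lam b N 0) ∨ (v = nd lam b N N ∧ u = (1, 0)) ∨
    ∃ i < N, ∃ v' ∈ pt (C i), ∃ u' ∈ pt (C i), v = am lam b N i v' ∧ u = am lam b N i u' ∧
      Cons (C i) v' u' ∧ v'.1 < u'.1 := by
  have h0 := H.h0
  have hl := H.l0
  have hl1 := H.l1
  have e0 : (nd lam b N 0).1 = lam := xn_zero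
  have eN : (nd lam b N N).1 = 1 - lam := H.xn_N
  rcases (H.zbox hv).2.2 with rfl | rfl | hv'
  · left
    refine ⟨rfl, ?_⟩
    have h1 : u.1 ≤ lam := by
      by_contra hcon
      push Not at hcon
      apply (hc.2 _ (nd_mem (i := 0) (Nat.zero_le _))).1
      rw [e0]
      exact ⟨hl, hcon⟩
    rcases (H.zbox hu).2.2 with rfl | rfl | hu'
    · simp at hlt
    · simp only at h1; linarith
    · exact H.zinj hu (nd_mem (Nat.zero_le _)) (by rw [e0]; linarith [hu'.1])
  · exfalso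
    have := H.zbox' hu
    simp only at hlt
    linarith [this.2]
  · rcases (H.zbox hu).2.2 with rfl | rfl | hu'
    · exfalso
      simp only at hlt
      linarith [hv'.1]
    · right; left
      refine ⟨?_, rfl⟩
      have h1 : 1 - lam ≤ v.1 := by
        by_contra hcon
        push Not at hcon
        apply (hc.2 _ (nd_mem (i := N) le_rfl)).1
        rw [eN]
        exact ⟨hcon, by simp only; linarith⟩
      exact H.zinj hv (nd_mem le_rfl) (by rw [eN]; linarith [hv'.2])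
    · right; right
      obtain ⟨i, hi, g1, g2⟩ := H.exists_tooth hv'.1 (by linarith [hu'.2])
      have g3 : u.1 ≤ xn lam N (i + 1) := by
        by_contra hcon
        push Not at hcon
        exact (hc.2 _ (nd_mem (i := i + 1) hi)).1 ⟨g2, hcon⟩
      obtain ⟨v', hv1, rfl⟩ := H.tooth_mem hi hv g1 g2.le
      obtain ⟨u', hu1, rfl⟩ := H.tooth_mem hi hu (by linarith) g3
      refine ⟨i, hi, v', hv1, u', hu1, rfl, rfl, H.am_cons hi hc, ?_⟩
      rw [am_fst, am_fst] at hlt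
      nlinarith

lemma ZH.finite (H : ZH lam b N C) : (Zig lam b N C).Finite := by
  have h1 : ((fun i : ℕ => ((nd lam b N i).1, (nd lam b N i).2, (0 : ℝ))) '' Set.Iic N).Finite :=
    (Set.finite_Iic N).image _
  have h2 : (⋃ i ∈ Set.Iio N, (fun p : ℝ × ℝ × ℝ => ((am lam b N i (p.1, p.2.1)).1,
      (am lam b N i (p.1, p.2.1)).2, p.2.2 + sg i * b)) '' C i).Finite :=
    (Set.finite_Iio N).biUnion (fun i hi => (H.geo i hi).fin.image _)
  apply (h1.union h2).subset
  rintro q (⟨i, hi, rfl⟩ | ⟨i, hi, p, hp, rfl⟩)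
  · exact Or.inl ⟨i, hi, rfl⟩
  · exact Or.inr (Set.mem_biUnion (x := i) hi ⟨p, hp, rfl⟩)

/-- comparing a close point with a far point -/
lemma close_far {s h l m : ℝ} {v w e : ℝ × ℝ} (hh : 0 ≤ h) (hl : 0 < l) (hhl : 2 * h ≤ l)
    (hm : m ≤ 1 / 4) (hw : w.1 ≠ v.1) (he : e.1 ≠ v.1) (h1 : |w.1 - v.1| ≤ h)
    (h2 : l ≤ |e.1 - v.1|) (h3 : |sl v w| ≤ m) (h4 : |sl v e| ≤ m) : d2 s v w ≤ d2 s v e := by
  rw [d2_eq hw, d2_eq he]
  have e1 : (w.1 - v.1) ^ 2 ≤ h ^ 2 := by
    rw [← sq_abs]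
    exact pow_le_pow_left₀ (abs_nonneg _) h1 2
  have e2 : l ^ 2 ≤ (e.1 - v.1) ^ 2 := by
    rw [← sq_abs (e.1 - v.1)]
    exact pow_le_pow_left₀ hl.le h2 2
  have e3 : 1 + (s + sl v w) ^ 2 ≤ 2 * (1 + (s + sl v e) ^ 2) := by
    rw [abs_le] at h3 h4
    have : (sl v w - sl v e) ^ 2 ≤ 1 / 4 := by
      have : |sl v w - sl v e| ≤ 1 / 2 := by
        rw [abs_le]; constructor <;> linarith [h3.1, h3.2, h4.1, h4.2]
      rw [← sq_abs]
      have := pow_le_pow_left₀ (abs_nonneg _) this 2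
      linarith
    nlinarith [sq_nonneg ((s + sl v w) - 2 * (s + sl v e))]
  have e4 : h ^ 2 * 2 ≤ l ^ 2 := by nlinarith
  calc (w.1 - v.1) ^ 2 * (1 + (s + sl v w) ^ 2) ≤ h ^ 2 * (2 * (1 + (s + sl v e) ^ 2)) := by
        apply mul_le_mul e1 e3 (by positivity) (by positivity)
    _ = (h ^ 2 * 2) * (1 + (s + sl v e) ^ 2) := by ring
    _ ≤ l ^ 2 * (1 + (s + sl v e) ^ 2) := by
        apply mul_le_mul_of_nonneg_right e4 (by positivity)
    _ ≤ (e.1 - v.1) ^ 2 * (1 + (s + sl v e) ^ 2) := by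
        apply mul_le_mul_of_nonneg_right e2 (by positivity)

end

end Pool.Agent.Lib.Helper10.YY
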