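import Pool.Agent.Lib.Helper10.YY.Y4

namespace Pool.Agent.Lib.Helper10.YY

section

variable {lam b : ℝ} {N : ℕ} {C : ℕ → Set (ℝ × ℝ × ℝ)}

lemma ZH.z_nearR (H : ZH lam b N C) (s : ℝ) {v u w : ℝ × ℝ} (hv : v ∈ pt (Zig lam b N C))
    (hu : u ∈ pt (Zig lam b N C)) (hw : w ∈ pt (Zig lam b N C))
    (hc : Cons (Zig lam b N C) v u) (h1 : v.1 < u.1) (h2 : u.1 < w.1) : d2 s v u < d2 s v w := by
  have h0 := H.h0
  rcases H.cons_cases hv hu hc h1 with ⟨rfl, rfl⟩ | ⟨rfl, rfl⟩ | ⟨i, hi, v', hv', u', hu', rfl, rfl, hc', hlt⟩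
  · exact H.far hv (isNode_nd (Nat.zero_le _)) hw (mul_pos (by linarith) (by linarith))
  · exfalso
    have := H.zbox' hw
    simp only at h2
    linarith [this.2]
  · rcases le_or_gt w.1 (xn lam N (i + 1)) with h3 | h3
    · have h4 := (H.am_x hi hv').1
      obtain ⟨w', hw', rfl⟩ := H.tooth_mem hi hw (by linarith) h3
      rw [d2_am, d2_am]
      have h5 : u'.1 < w'.1 := by
        rw [am_fst, am_fst] at h2
        nlinarith
      have := (H.geo i hi).nearR (s + sg i * b) v' hv' u' hu' w' hw' hc' hlt h5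
      exact mul_lt_mul_of_pos_left this (by positivity)
    · have h4 : d2 s (am lam b N i v') (am lam b N i u') ≤ d2 s (am lam b N i v') (nd lam b N (i + 1)) := by
        rw [← am_one, d2_am, d2_am]
        have h6 := (H.geo i hi).pbox H.b0 hu' H.l0
        rcases lt_or_eq_of_le h6.2.1 with h7 | h7
        · have := (H.geo i hi).nearR (s + sg i * b) v' hv' u' hu' (1, 0) (one_mem _) hc' hlt h7
          exact (mul_lt_mul_of_pos_left this (by positivity)).le
        · have : u' = (1, 0) := (H.geo i hi).pinj H.l0 hu' (one_mem _) h7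
          rw [this]
      have h5 : d2 s (am lam b N i v') (nd lam b N (i + 1)) < d2 s (am lam b N i v') w := by
        apply H.far hv (isNode_nd (i := i + 1) hi) hw
        have h6 : (nd lam b N (i + 1)).1 = xn lam N (i + 1) := rfl
        have h7 := (H.am_x hi hu').2
        rw [h6]
        exact mul_pos (by linarith) (by linarith)
      linarith

lemma ZH.z_nearL (H : ZH lam b N C) (s : ℝ) {v u w : ℝ × ℝ} (hv : v ∈ pt (Zig lam b N C))
    (hu : u ∈ pt (Zig lam b N C)) (hw : w ∈ pt (Zig lam b N C))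
    (hc : Cons (Zig lam b N C) v u) (h1 : u.1 < v.1) (h2 : w.1 < u.1) : d2 s v u < d2 s v w := by
  have h0 := H.h0
  rcases H.cons_cases hu hv hc.symm h1 with ⟨rfl, rfl⟩ | ⟨rfl, rfl⟩ | ⟨i, hi, u', hu', v', hv', rfl, rfl, hc', hlt⟩
  · exfalso
    have := H.zbox' hw
    simp only at h2
    linarith [this.1]
  · exact H.far hv (isNode_nd le_rfl) hw (by nlinarith)
  · rcases le_or_gt (xn lam N i) w.1 with h3 | h3
    · have h4 := (H.am_x hi hv').2
      obtain ⟨w', hw', rfl⟩ := H.tooth_mem hi hw h3 (by linarith)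
      rw [d2_am, d2_am]
      have h5 : w'.1 < u'.1 := by
        rw [am_fst, am_fst] at h2
        nlinarith
      have := (H.geo i hi).nearL (s + sg i * b) v' hv' u' hu' w' hw' hc'.symm hlt h5
      exact mul_lt_mul_of_pos_left this (by positivity)
    · have h4 : d2 s (am lam b N i v') (am lam b N i u') ≤ d2 s (am lam b N i v') (nd lam b N i) := by
        rw [← am_zero, d2_am, d2_am]
        have h6 := (H.geo i hi).pbox H.b0 hu' H.l0
        rcases lt_or_eq_of_le h6.1 with h7 | h7
        · have := (H.geo i hi).nearL (s + sg i * b) v' hv' u' hu' (0, 0) (zero_mem _) hc'.symm hlt h7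
          exact (mul_lt_mul_of_pos_left this (by positivity)).le
        · have : u' = (0, 0) := (H.geo i hi).pinj H.l0 hu' (zero_mem _) h7.symm
          rw [this]
      have h5 : d2 s (am lam b N i v') (nd lam b N i) < d2 s (am lam b N i v') w := by
        apply H.far hv (isNode_nd hi.le) hw
        have h6 : (nd lam b N i).1 = xn lam N i := rfl
        have h7 := (H.am_x hi hu').1
        rw [h6]
        nlinarith
      linarith

/-- the edge property at nodes -/
lemma ZH.edge_node (H : ZH lam b N C) (s : ℝ) {i j : ℕ} (hi : i < N) (hj : j ≤ N) {v w : ℝ × ℝ}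
    (hv : v ∈ pt (C i)) (hw : w ∈ pt (C i)) (hne : w.1 ≠ v.1)
    (hvj : am lam b N i v = nd lam b N j) :
    d2 s (am lam b N i v) (am lam b N i w) ≤ d2 s (am lam b N i v) (0, 0) ∧
    d2 s (am lam b N i v) (am lam b N i w) ≤ d2 s (am lam b N i v) (1, 0) := by
  have h0 := H.h0
  have hl := H.l0
  have hl1 := H.l1
  have hhl := H.hl
  have hb1 := H.b1
  have hvx : lam ≤ (am lam b N i v).1 ∧ (am lam b N i v).1 ≤ 1 - lam := by
    rw [hvj]; exact ⟨H.xn_lo j, H.xn_hi hj⟩
  have pv := (H.geo i hi).pbox H.b0 hv H.l0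
  have pw := (H.geo i hi).pbox H.b0 hw H.l0
  have hP : IsNode lam b N (am lam b N i v) := by rw [hvj]; exact isNode_nd hj
  have h1 : |(am lam b N i w).1 - (am lam b N i v).1| ≤ hh lam N := by
    rw [am_fst, am_fst, show xn lam N i + hh lam N * w.1 - (xn lam N i + hh lam N * v.1) =
      hh lam N * (w.1 - v.1) by ring, abs_mul, abs_of_pos h0]
    have : |w.1 - v.1| ≤ 1 := by rw [abs_le]; constructor <;> linarith
    nlinarith [abs_nonneg (w.1 - v.1)]
  have hne' : (am lam b N i w).1 ≠ (am lam b N i v).1 := by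
    rw [am_fst, am_fst]
    intro h
    exact hne (mul_left_cancel₀ h0.ne' (add_left_cancel h))
  constructor
  · apply close_far (m := 2 * b) h0.le hl (by linarith) (by linarith) hne' _ h1
    · simp only [zero_sub, abs_neg]
      exact hvx.1.trans (le_abs_self _)
    · exact H.slope_node hP (am_mem hi hw)
    · exact H.slope_node hP (zero_mem _)
    · simp only
      linarith [hvx.1]
  · apply close_far (m := 2 * b) h0.le hl (by linarith) (by linarith) hne' _ h1
    · simp only
      rw [abs_of_nonneg (by linarith)]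
      linarith [hvx.2]
    · exact H.slope_node hP (am_mem hi hw)
    · exact H.slope_node hP (one_mem _)
    · simp only
      linarith [hvx.2]

lemma ZH.edge_pair (H : ZH lam b N C) (s : ℝ) {i : ℕ} (hi : i < N) {v w : ℝ × ℝ}
    (hv : v ∈ pt (C i)) (hw : w ∈ pt (C i)) (hc : Cons (C i) v w) :
    d2 s (am lam b N i v) (am lam b N i w) ≤ d2 s (am lam b N i v) (0, 0) ∧
    d2 s (am lam b N i v) (am lam b N i w) ≤ d2 s (am lam b N i v) (1, 0) := by
  have hl := H.l0
  have hl1 := H.l1
  rcases hv with rfl | rfl | ⟨σ, hv⟩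
  · exact H.edge_node s hi hi.le (zero_mem _) hw hc.1.symm (am_zero _ _ _ _)
  · exact H.edge_node s hi (j := i + 1) hi (one_mem _) hw hc.1.symm (am_one _ _ _ _)
  · have h1 := (H.geo i hi).edge (s + sg i * b) _ hv w hw hc
    have hx := H.am_xi hi hv
    have h00 : 0 < hh lam N * lam := mul_pos H.h0 hl
    simp only at h1 hx
    have hP : (nd lam b N i).1 = xn lam N i := rfl
    have hQ : (nd lam b N (i + 1)).1 = xn lam N (i + 1) := rfl
    have h2 : d2 s (am lam b N i v) (am lam b N i w) ≤ d2 s (am lam b N i v) (nd lam b N i) := by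
      rw [← am_zero, d2_am, d2_am]
      exact mul_le_mul_of_nonneg_left h1.1 (by positivity)
    have h3 : d2 s (am lam b N i v) (am lam b N i w) ≤ d2 s (am lam b N i v) (nd lam b N (i + 1)) := by
      rw [← am_one, d2_am, d2_am]
      exact mul_le_mul_of_nonneg_left h1.2 (by positivity)
    have hvm := am_mem hi (int_mem hv) (lam := lam) (b := b)
    have h4 : d2 s (am lam b N i v) (nd lam b N i) < d2 s (am lam b N i v) (0, 0) := by
      apply H.far hvm (isNode_nd hi.le) (zero_mem _)
      rw [hP]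
      have := H.xn_lo i
      simp only
      nlinarith
    have h5 : d2 s (am lam b N i v) (nd lam b N (i + 1)) < d2 s (am lam b N i v) (1, 0) := by
      apply H.far hvm (isNode_nd (i := i + 1) hi) (one_mem _)
      rw [hQ]
      have := H.xn_hi (i := i + 1) hi
      simp only
      apply mul_pos <;> linarith
    exact ⟨by linarith, by linarith⟩

lemma ZH.z_edge (H : ZH lam b N C) (s : ℝ) {v w : ℝ × ℝ} (hv : v ∈ pt (Zig lam b N C))
    (hv1 : lam ≤ v.1 ∧ v.1 ≤ 1 - lam) (hw : w ∈ pt (Zig lam b N C))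
    (hc : Cons (Zig lam b N C) v w) : d2 s v w ≤ d2 s v (0, 0) ∧ d2 s v w ≤ d2 s v (1, 0) := by
  have hl := H.l0
  have hl1 := H.l1
  have e0 : nd lam b N 0 = (lam, 0) := by
    unfold nd
    rw [xn_zero]
    simp [yn]
  have eN : nd lam b N N = (1 - lam, 0) := by
    unfold nd
    rw [H.xn_N]
    simp [yn, H.ev]
  rcases lt_or_gt_of_ne hc.1 with h1 | h1
  · rcases H.cons_cases hv hw hc h1 with ⟨rfl, rfl⟩ | ⟨rfl, rfl⟩ | ⟨i, hi, v', hv', w', hw', rfl, rfl, hc', hlt⟩
    · exfalso
      simp only at hv1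
      linarith [hv1.1]
    · refine ⟨?_, le_rfl⟩
      rw [eN]
      unfold d2
      simp only
      nlinarith [mul_nonneg (sq_nonneg s) (show (0 : ℝ) ≤ 1 - 2 * lam by linarith), sq_nonneg s]
    · exact H.edge_pair s hi hv' hw' hc'
  · rcases H.cons_cases hw hv hc.symm h1 with ⟨rfl, rfl⟩ | ⟨rfl, rfl⟩ | ⟨i, hi, w', hw', v', hv', rfl, rfl, hc', hlt⟩
    · refine ⟨le_rfl, ?_⟩
      rw [e0]
      unfold d2
      simp only
      nlinarith [mul_nonneg (sq_nonneg s) (show (0 : ℝ) ≤ 1 - 2 * lam by linarith), sq_nonneg s]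
    · exfalso
      simp only at hv1
      linarith [hv1.2]
    · exact H.edge_pair s hi hv' hw' hc'.symm

lemma ZH.z_lab (H : ZH lam b N C) {p : ℝ × ℝ × ℝ} (hp : p ∈ Zig lam b N C) {u : ℝ × ℝ}
    (hu : u ∈ pt (Zig lam b N C)) (hc : Cons (Zig lam b N C) (p.1, p.2.1) u) :
    |sl (p.1, p.2.1) u - p.2.2| ≤ 3 * b := by
  have hb := H.b0
  have h0 := H.h0
  rcases hp with ⟨i, hi, rfl⟩ | ⟨i, hi, p, hp, rfl⟩
  · have := H.slope_node (isNode_nd hi) hu
    simp only [sub_zero]
    change |sl (nd lam b N i) u| ≤ 3 * b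
    linarith
  · have hbx := (H.geo i hi).box _ hp
    have hl := H.l0
    simp only at hc ⊢
    change Cons (Zig lam b N C) (am lam b N i (p.1, p.2.1)) u at hc
    change |sl (am lam b N i (p.1, p.2.1)) u - (p.2.2 + sg i * b)| ≤ 3 * b
    obtain ⟨u', hu', rfl, hc'⟩ := H.cons_tooth hi hu (by simp only; linarith [hbx.1])
      (by simp only; linarith [hbx.2.1]) hc
    rw [sl_am lam b N h0.ne' hc'.1.symm]
    have := (H.geo i hi).lab _ hp u' hu' hc'
    rwa [show sl (p.1, p.2.1) u' + sg i * b - (p.2.2 + sg i * b) = sl (p.1, p.2.1) u' - p.2.2 by ring]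

/-- the zigzag satisfies the geometric invariants -/
theorem ZH.geo_zig (H : ZH lam b N C) : Geo lam b (Zig lam b N C) where
  fin := H.finite
  box := by
    intro p hp
    have h1 := H.zig_box hp
    have h2 := H.hs
    have h3 := mul_le_mul_of_nonneg_left h2 H.b0.le
    exact ⟨h1.1, h1.2.1, h1.2.2.1, by linarith [h1.2.2.2]⟩
  inj := fun p hp q hq h => H.zig_inj hp hq h
  nearR := fun s v hv u hu w hw hc h1 h2 => H.z_nearR s hv hu hw hc h1 h2
  nearL := fun s v hv u hu w hw hc h1 h2 => H.z_nearL s hv hu hw hc h1 h2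
  edge := by
    intro s p hp w hw hc
    have h1 := H.zig_box hp
    exact H.z_edge s (int_mem hp) ⟨h1.1, h1.2.1⟩ hw hc
  lab := fun p hp u hu hc => H.z_lab hp hu hc

lemma geo_empty (lam b : ℝ) : Geo lam b ∅ where
  fin := Set.finite_empty
  box := by intro p hp; exact absurd hp (Set.notMem_empty _)
  inj := by intro p hp; exact absurd hp (Set.notMem_empty _)
  nearR := by
    intro s v hv u hu w hw hc h1 h2
    exfalso
    rcases hv with rfl | rfl | ⟨_, h⟩
    · rcases hu with rfl | rfl | ⟨_, h⟩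
      · simp at h1
      · rcases hw with rfl | rfl | ⟨_, h⟩
        · simp only at h2; linarith
        · simp at h2
        · exact h
      · exact h
    · rcases hu with rfl | rfl | ⟨_, h⟩
      · simp only at h1; linarith
      · simp at h1
      · exact h
    · exact h
  nearL := by
    intro s v hv u hu w hw hc h1 h2
    exfalso
    rcases hv with rfl | rfl | ⟨_, h⟩
    · rcases hu with rfl | rfl | ⟨_, h⟩
      · simp at h1
      · simp only at h1; linarith
      · exact h
    · rcases hu with rfl | rfl | ⟨_, h⟩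
      · rcases hw with rfl | rfl | ⟨_, h⟩
        · simp at h2
        · simp only at h2; linarith
        · exact h
      · simp at h1
      · exact h
    · exact h
  edge := by intro s p hp; exact absurd hp (Set.notMem_empty _)
  lab := by intro p hp; exact absurd hp (Set.notMem_empty _)

end

end Pool.Agent.Lib.Helper10.YY
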