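import Pool.Agent.Lib.Helper10.YY.Y6

namespace Pool.Agent.Lib.Helper10.YY

open Real

/-- a set of node positions of a block -/
structure NodeSet (b : ℝ) (C : Set (ℝ × ℝ × ℝ)) (Nd : Set (ℝ × ℝ)) : Prop where
  sub : Nd ⊆ pt C
  slope : ∀ c ∈ Nd, ∀ x ∈ pt C, |sl c x| ≤ 2 * b
  lab : ∀ c ∈ Nd, c = (0, 0) ∨ c = (1, 0) ∨ (c.1, c.2, 0) ∈ C

/-- aiming condition with respect to the right neighbour -/
def AimR (k : ℕ) (b s o e X Y : ℝ) (C : Set (ℝ × ℝ × ℝ)) (Nd : Set (ℝ × ℝ)) : Prop :=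
  ∀ (m : ℤ) (τ : ℝ), |τ - s| ≤ 3 * b → o + m * coneAngle k = arctan τ + 0 →
    GoodR (pt C) Nd e (2 * b * (1 - X) - e * Y) (1 - X) (e * (τ - s) + b)

/-- aiming condition with respect to the left neighbour -/
def AimL (k : ℕ) (b s o e X Y : ℝ) (C : Set (ℝ × ℝ × ℝ)) (Nd : Set (ℝ × ℝ)) : Prop :=
  ∀ (m : ℤ) (τ : ℝ), |τ - s| ≤ 3 * b → o + m * coneAngle k = arctan τ + π →
    GoodR ((fun q : ℝ × ℝ => (1 - q.1, q.2)) '' pt C) ((fun q : ℝ × ℝ => (1 - q.1, q.2)) '' Nd)
      (-e) (2 * b * X + e * Y) X (e * (τ - s) + b)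

lemma exists_inCone {k : ℕ} (hk : 2 ≤ k) (o φ : ℝ) : ∃ m : ℤ, InCone k o m φ := by
  have hc := coneAngle_pos hk
  refine ⟨⌊(φ - o) / coneAngle k⌋, ?_, ?_⟩
  · have := Int.floor_le ((φ - o) / coneAngle k)
    rw [le_div_iff₀ hc] at this
    linarith
  · have := Int.lt_floor_add_one ((φ - o) / coneAngle k)
    rw [div_lt_iff₀ hc] at this
    linarith

section

variable {lam b : ℝ} {N : ℕ} {C : ℕ → Set (ℝ × ℝ × ℝ)} {k : ℕ}

lemma sg_mul_self (i : ℕ) : sg i ^ 2 = 1 := by rw [sq, sg_sq]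

/-- slope formula, right neighbour -/
lemma ZH.slopeR (H : ZH lam b N C) {j : ℕ} {X Y ξ y : ℝ} (h : ξ + (1 - X) ≠ 0) :
    sl (am lam b N j (X, Y)) (am lam b N (j + 1) (ξ, y)) =
      -sg j * b + sg j * Fa (sg j) (2 * b * (1 - X) - sg j * Y) (1 - X) (ξ, y) := by
  have h0 := H.h0
  unfold sl am Fa
  simp only
  rw [yn_succ, xn_succ, sg_succ]
  have e1 : xn lam N j + hh lam N + hh lam N * ξ - (xn lam N j + hh lam N * X) =
      hh lam N * (ξ + (1 - X)) := by ring
  rw [e1]
  have e2 := sg_mul_self j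
  field_simp
  linear_combination (-(hh lam N * (y - Y))) * e2

/-- slope formula, left neighbour -/
lemma ZH.slopeL (H : ZH lam b N C) {i : ℕ} {X Y ζ y : ℝ} (h : (1 - ζ) + X ≠ 0) :
    sl (am lam b N (i + 1) (X, Y)) (am lam b N i (ζ, y)) =
      -sg (i + 1) * b + sg (i + 1) * Fa (-sg (i + 1)) (2 * b * X + sg (i + 1) * Y) X (1 - ζ, y) := by
  have h0 := H.h0
  unfold sl am Fa
  simp only
  rw [yn_succ, xn_succ, sg_succ]
  have e1 : xn lam N i + hh lam N * ζ - (xn lam N i + hh lam N + hh lam N * X) =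
      -(hh lam N * ((1 - ζ) + X)) := by ring
  rw [e1]
  have e2 := sg_mul_self i
  field_simp
  linear_combination (-(hh lam N * (Y - y))) * e2

/-- the shared end has the largest value -/
lemma Fa_le {b lam κ g δ : ℝ} (hb : 0 < b) (hl : 0 < lam) (hκ : κ = 1 ∨ κ = -1) (hδ : lam ≤ δ)
    (hδ1 : δ ≤ 1) (hg : b * lam ≤ g) {p : ℝ × ℝ} (hp : p = (0, 0) ∨ lam ≤ p.1)
    (hy0 : 0 ≤ p.2) (hy : p.2 ≤ b * lam ^ 2) : Fa κ g δ p ≤ Fa κ g δ (0, 0) := by
  rcases hp with rfl | hp
  · exact le_rfl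
  · unfold Fa
    have h1 : 0 < δ := by linarith
    rw [div_le_div_iff₀ (by linarith) (by simpa using h1)]
    simp only [mul_zero, add_zero, zero_add]
    have h2 : κ * p.2 ≤ b * lam ^ 2 := by rcases hκ with rfl | rfl <;> linarith
    have h3 : b * lam ^ 2 * δ ≤ b * lam ^ 2 := by
      have : 0 ≤ b * lam ^ 2 := by positivity
      nlinarith
    have h4 : b * lam * lam ≤ g * p.1 := by
      apply mul_le_mul hg hp hl.le
      have := mul_pos hb hl
      linarith
    nlinarith

/-- slopes from a point left of a special point to a point right of it -/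
lemma ZH.slope_across (H : ZH lam b N C) {v P x : ℝ × ℝ} (hv : v ∈ pt (Zig lam b N C))
    (hP : IsNode lam b N P) (hx : x ∈ pt (Zig lam b N C)) (h : 0 < (P.1 - v.1) * (x.1 - P.1)) :
    |sl v x| ≤ 2 * b := by
  apply sl_between h
  · rw [sl_comm]; exact H.slope_node hP hv
  · exact H.slope_node hP hx

/-- the right neighbour tooth -/
lemma ZH.adjR (H : ZH lam b N C) (hk : 2 ≤ k) (hbk : coneAngle k = 64 * b) {s o : ℝ} {j : ℕ}
    (hj : j + 1 < N) {p : ℝ × ℝ × ℝ} (hp : p ∈ C j) {Nd : Set (ℝ × ℝ)}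
    (hNd : NodeSet b (C (j + 1)) Nd) (hA : AimR k b s o (sg j) p.1 p.2.1 (C (j + 1)) Nd)
    {w : ℝ × ℝ × ℝ} (hw : w ∈ C (j + 1))
    (hvis : Vis k (Zig lam b N C) s o (am lam b N j (p.1, p.2.1))
      (am lam b N (j + 1) (w.1, w.2.1))) :
    ∃ τ, ((am lam b N (j + 1) (w.1, w.2.1)).1, (am lam b N (j + 1) (w.1, w.2.1)).2, τ) ∈
      Zig lam b N C ∧
      |sl (am lam b N j (p.1, p.2.1)) (am lam b N (j + 1) (w.1, w.2.1)) - τ| ≤ 3 * b := by
  have h0 := H.h0
  have hb := H.b0
  have hb1 := H.b1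
  have hl := H.l0
  have hl1 := H.l1
  have h00 : 0 < hh lam N * lam := mul_pos h0 hl
  have hj' : j < N := by omega
  obtain ⟨pb1, pb2, pb3, pb4⟩ := (H.geo j hj').box _ hp
  obtain ⟨wb1, wb2, wb3, wb4⟩ := (H.geo _ hj).box _ hw
  set v := am lam b N j (p.1, p.2.1) with hv
  set W := am lam b N (j + 1) (w.1, w.2.1) with hW
  set Q := nd lam b N (j + 1) with hQ
  have hvm : v ∈ pt (Zig lam b N C) := am_mem hj' (int_mem hp)
  have hWm : W ∈ pt (Zig lam b N C) := am_mem hj (int_mem hw)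
  have hQm : Q ∈ pt (Zig lam b N C) := nd_mem hj.le
  have hQn : IsNode lam b N Q := isNode_nd hj.le
  have hQ1 : Q.1 = xn lam N (j + 1) := rfl
  have vx := H.am_xi hj' hp
  rw [← hv] at vx
  have vQ : v.1 < Q.1 := by rw [hQ1]; linarith
  -- general facts for points of the neighbour tooth
  have gx : ∀ q ∈ pt (C (j + 1)), Q.1 ≤ (am lam b N (j + 1) q).1 := fun q hq => by
    rw [hQ1]; exact (H.am_x hj hq).1
  have gs : ∀ q ∈ pt (C (j + 1)), |sl v (am lam b N (j + 1) q)| ≤ 2 * b := by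
    intro q hq
    rcases lt_or_eq_of_le (gx q hq) with h | h
    · exact H.slope_across hvm hQn (am_mem hj hq) (mul_pos (by linarith) (by linarith))
    · have : am lam b N (j + 1) q = Q := H.zinj (am_mem hj hq) hQm h.symm
      rw [this, sl_comm]
      exact H.slope_node hQn hvm
  have gf : ∀ q ∈ pt (C (j + 1)), sl v (am lam b N (j + 1) q) =
      -sg j * b + sg j * Fa (sg j) (2 * b * (1 - p.1) - sg j * p.2.1) (1 - p.1) q := by
    intro q hq
    have hq1 := ((H.geo _ hj).pbox hb hq hl).1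
    have := H.slopeR (j := j) (X := p.1) (Y := p.2.1) (ξ := q.1) (y := q.2) (by
      have : 0 < q.1 + (1 - p.1) := by linarith
      exact this.ne')
    exact this
  have hQ0 : Q = am lam b N (j + 1) (0, 0) := (am_zero _ _ _ _).symm
  have hWx : Q.1 < W.1 := by
    have := (H.am_xi hj hw).1
    rw [← hW] at this
    rw [hQ1]; linarith
  have hfar : d2 s v Q < d2 s v W := H.far hvm hQn hWm (mul_pos (by linarith) (by linarith))
  have hns : ¬ SameCone k o (dv s v W) (dv s v Q) := fun hs => by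
    have := hvis Q hQm (fun h => by rw [h] at vQ; exact lt_irrefl _ vQ) hs
    linarith
  obtain ⟨m, hm⟩ := exists_inCone hk o (ang s v W)
  have hmQ : ¬ InCone k o m (ang s v Q) := fun h => hns (same_R (by linarith) vQ hm h)
  have hlb : b * lam ^ 2 / 8 ≤ b * lam := by nlinarith [mul_pos hb hl]
  have hl1X : lam ≤ 1 - p.1 := by linarith
  have hblX : b * lam ≤ b * (1 - p.1) := mul_le_mul_of_nonneg_left hl1X hb.le
  have hg : b * lam ≤ 2 * b * (1 - p.1) - sg j * p.2.1 := by
    rcases sg_or j with h | h <;> rw [h] <;> linarith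
  have hangW : ang s v W = arctan (s + (-sg j * b + sg j *
      Fa (sg j) (2 * b * (1 - p.1) - sg j * p.2.1) (1 - p.1) (w.1, w.2.1))) := by
    unfold ang
    rw [hW, gf _ (int_mem hw)]
  have hangQ : ang s v Q = arctan (s + (-sg j * b + sg j *
      Fa (sg j) (2 * b * (1 - p.1) - sg j * p.2.1) (1 - p.1) (0, 0))) := by
    unfold ang
    rw [hQ0, gf _ (zero_mem _)]
  obtain ⟨q, hq, hq1, hq0, hqm⟩ := aim_cone (T := pt (C (j + 1))) (Nd := Nd) (κ := sg j)
    (g := 2 * b * (1 - p.1) - sg j * p.2.1) (δ := 1 - p.1) (e := sg j) (c := 0) (s := s) (o := o)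
    hb hbk (sg_or j) hA hNd.sub
    (by
      intro q hq
      have hqb := (H.geo _ hj).pbox hb hq hl
      apply Fa_le hb hl (sg_or j) hl1X (by linarith) hg _ hqb.2.2.1
        (by have : 0 ≤ b * lam ^ 2 := by positivity
            linarith [hqb.2.2.2])
      rcases hq with h | h | ⟨σ, h⟩
      · exact Or.inl h
      · right; rw [h]; simp only; linarith
      · right; exact ((H.geo _ hj).box _ h).1)
    (by
      intro q hq
      rw [← gf q hq]
      exact gs q hq)
    (zero_mem _) (int_mem hw) (m := m) (by rw [add_zero, ← hangW]; exact hm)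
    (by rw [add_zero, ← hangQ]; exact hmQ)
  have hqT := hNd.sub hq
  rw [add_zero, ← gf q hqT] at hqm
  rcases lt_or_eq_of_le hq1 with hlt | heq
  · -- a nearer point in the same cone
    exfalso
    simp only at hlt
    have hax : (am lam b N (j + 1) q).1 < W.1 := by
      rw [hW, am_fst, am_fst]
      nlinarith
    have hvq : v.1 < (am lam b N (j + 1) q).1 := by linarith [gx q hqT]
    have hsame : SameCone k o (dv s v W) (dv s v (am lam b N (j + 1) q)) :=
      same_R (by linarith) hvq hm hqm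
    have h1 := hvis _ (am_mem hj hqT) (fun h => by rw [h] at hvq; exact lt_irrefl _ hvq) hsame
    have h2 : d2 s v (am lam b N (j + 1) q) < d2 s v W := by
      apply dist_lemma (mul_pos (by linarith) (by linarith))
      have h3 := gs q hqT
      have h4 : |sl (am lam b N (j + 1) q) W| ≤ 3 * b := by
        rw [hW, sl_am lam b N h0.ne' (by simp only; exact hlt.ne')]
        have h5 := hNd.slope q hq _ (int_mem hw)
        have h6 : |sg (j + 1) * b| = b := by rw [abs_mul, sg_abs, one_mul, abs_of_pos hb]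
        calc |sl q (w.1, w.2.1) + sg (j + 1) * b| ≤ |sl q (w.1, w.2.1)| + |sg (j + 1) * b| :=
              abs_add_le _ _
          _ ≤ 3 * b := by rw [h6]; linarith
      calc |sl v (am lam b N (j + 1) q) - sl (am lam b N (j + 1) q) W| ≤
            |sl v (am lam b N (j + 1) q)| + |sl (am lam b N (j + 1) q) W| := abs_sub _ _
        _ < 2 := by linarith
    linarith
  · -- `w` is a node of its block
    have hqw : q = (w.1, w.2.1) := (H.geo _ hj).pinj hl hqT (int_mem hw) heq
    rcases hNd.lab q hq with h | h | h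
    · exact absurd h hq0
    · exfalso
      rw [h] at heq
      simp only at heq
      linarith
    · refine ⟨0 + sg (j + 1) * b, ?_, ?_⟩
      · have := am_int (lam := lam) (b := b) hj h
        simp only at this
        rw [hqw] at this
        exact this
      · have h5 := gs _ (int_mem hw)
        rw [← hW] at h5
        have h6 : |sg (j + 1) * b| = b := by rw [abs_mul, sg_abs, one_mul, abs_of_pos hb]
        calc |sl v W - (0 + sg (j + 1) * b)| ≤ |sl v W| + |0 + sg (j + 1) * b| := abs_sub _ _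
          _ ≤ 3 * b := by rw [zero_add, h6]; linarith

end

end Pool.Agent.Lib.Helper10.YY
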