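import Pool.Agent.Lib.Helper10.YY.Y8

namespace Pool.Agent.Lib.Helper10.YY

open Real

section

variable {lam b : ℝ} {N : ℕ} {C : ℕ → Set (ℝ × ℝ × ℝ)} {k : ℕ}

/-- points beyond the right neighbour tooth are not visible -/
lemma ZH.beyondR (H : ZH lam b N C) (hk : 2 ≤ k) (hbk : coneAngle k = 64 * b) {s o : ℝ} {j : ℕ}
    (hj : j + 2 ≤ N) {v : ℝ × ℝ} (hv : v ∈ pt (Zig lam b N C)) (hvx : v.1 < xn lam N (j + 1))
    {w : ℝ × ℝ} (hw : w ∈ pt (Zig lam b N C)) (hwx : xn lam N (j + 2) < w.1)
    (hvis : Vis k (Zig lam b N C) s o v w) : False := by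
  have h0 := H.h0
  have hb := H.b0
  have hb1 := H.b1
  set Q := nd lam b N (j + 1) with hQ
  set R := nd lam b N (j + 2) with hR
  have hQm : Q ∈ pt (Zig lam b N C) := nd_mem (by omega)
  have hRm : R ∈ pt (Zig lam b N C) := nd_mem (by omega)
  have hQn : IsNode lam b N Q := isNode_nd (by omega)
  have hRn : IsNode lam b N R := isNode_nd (by omega)
  have hQ1 : Q.1 = xn lam N (j + 1) := rfl
  have hR1 : R.1 = xn lam N (j + 2) := rfl
  have hQR : Q.1 < R.1 := by rw [hQ1, hR1]; exact H.xn_lt (by omega)
  have bv := H.zbox hv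
  have bw := H.zbox hw
  have fQ : d2 s v Q < d2 s v w := H.far hv hQn hw (mul_pos (by linarith) (by linarith))
  have fR : d2 s v R < d2 s v w := H.far hv hRn hw (mul_pos (by linarith) (by linarith))
  have sQ := H.slope_node hQn hv
  have sR := H.slope_node hRn hv
  rw [sl_comm, abs_le] at sQ sR
  have nQ : ¬ SameCone k o (dv s v w) (dv s v Q) := fun hs => by
    have := hvis Q hQm (fun h => by rw [← h] at hvx; exact lt_irrefl _ hvx) hs
    linarith
  have nR : ¬ SameCone k o (dv s v w) (dv s v R) := fun hs => by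
    have := hvis R hRm (fun h => by rw [← h] at hvx; linarith) hs
    linarith
  obtain ⟨m, hm⟩ := exists_inCone hk o (ang s v w)
  have henc := enclR (v := v) (Q := Q) (R := R) (x := w) (B := b * hh lam N) (by linarith) hQR
    (by linarith) bv.1 bv.2.1 bw.1 bw.2.1 (yn_pair lam b N (j + 1))
  have hor : InCone k o m (ang s v Q) ∨ InCone k o m (ang s v R) := by
    rcases henc with ⟨e1, e2⟩ | ⟨e1, e2⟩
    · apply between_core _ _ _ hm
      · exact Real.arctan_mono (by linarith)
      · exact Real.arctan_mono (by linarith)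
      · have := arctan_sub_le (x := s + sl v Q) (y := s + sl v R) (by linarith)
        unfold ang
        linarith [sQ.1, sR.2]
    · apply Or.symm
      apply between_core _ _ _ hm
      · exact Real.arctan_mono (by linarith)
      · exact Real.arctan_mono (by linarith)
      · have := arctan_sub_le (x := s + sl v R) (y := s + sl v Q) (by linarith)
        unfold ang
        linarith [sQ.2, sR.1]
  rcases hor with h | h
  · exact nQ (same_R (by linarith) (by linarith) hm h)
  · exact nR (same_R (by linarith) (by linarith) hm h)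

/-- points beyond the left neighbour tooth are not visible -/
lemma ZH.beyondL (H : ZH lam b N C) (hk : 2 ≤ k) (hbk : coneAngle k = 64 * b) {s o : ℝ} {i : ℕ}
    (hj : i + 1 ≤ N) {v : ℝ × ℝ} (hv : v ∈ pt (Zig lam b N C)) (hvx : xn lam N (i + 1) < v.1)
    {w : ℝ × ℝ} (hw : w ∈ pt (Zig lam b N C)) (hwx : w.1 < xn lam N i)
    (hvis : Vis k (Zig lam b N C) s o v w) : False := by
  have h0 := H.h0
  have hb := H.b0
  have hb1 := H.b1
  set Q := nd lam b N (i + 1) with hQ
  set R := nd lam b N i with hR
  have hQm : Q ∈ pt (Zig lam b N C) := nd_mem (by omega)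
  have hRm : R ∈ pt (Zig lam b N C) := nd_mem (by omega)
  have hQn : IsNode lam b N Q := isNode_nd (by omega)
  have hRn : IsNode lam b N R := isNode_nd (by omega)
  have hQ1 : Q.1 = xn lam N (i + 1) := rfl
  have hR1 : R.1 = xn lam N i := rfl
  have hQR : R.1 < Q.1 := by rw [hQ1, hR1]; exact H.xn_lt (by omega)
  have bv := H.zbox hv
  have bw := H.zbox hw
  have fQ : d2 s v Q < d2 s v w := H.far hv hQn hw (by nlinarith)
  have fR : d2 s v R < d2 s v w := H.far hv hRn hw (by nlinarith)
  have sQ := H.slope_node hQn hv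
  have sR := H.slope_node hRn hv
  rw [sl_comm, abs_le] at sQ sR
  have nQ : ¬ SameCone k o (dv s v w) (dv s v Q) := fun hs => by
    have := hvis Q hQm (fun h => by rw [← h] at hvx; exact lt_irrefl _ hvx) hs
    linarith
  have nR : ¬ SameCone k o (dv s v w) (dv s v R) := fun hs => by
    have := hvis R hRm (fun h => by rw [← h] at hvx; linarith) hs
    linarith
  obtain ⟨m, hm⟩ := exists_inCone hk o (ang s v w + π)
  have hyp := yn_pair lam b N i
  have henc := enclL (v := v) (Q := Q) (R := R) (x := w) (B := b * hh lam N) (by linarith) hQR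
    (by linarith) bv.1 bv.2.1 bw.1 bw.2.1 (by
      rcases hyp with ⟨a1, a2⟩ | ⟨a1, a2⟩
      · right; exact ⟨a2, a1⟩
      · left; exact ⟨a2, a1⟩)
  have hor : InCone k o m (ang s v Q + π) ∨ InCone k o m (ang s v R + π) := by
    rcases henc with ⟨e1, e2⟩ | ⟨e1, e2⟩
    · apply between_core _ _ _ hm
      · have := Real.arctan_mono (show s + sl v Q ≤ s + sl v w by linarith)
        unfold ang; linarith
      · have := Real.arctan_mono (show s + sl v w ≤ s + sl v R by linarith)
        unfold ang; linarith
      · have := arctan_sub_le (x := s + sl v Q) (y := s + sl v R) (by linarith)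
        unfold ang
        linarith [sQ.1, sR.2]
    · apply Or.symm
      apply between_core _ _ _ hm
      · have := Real.arctan_mono (show s + sl v R ≤ s + sl v w by linarith)
        unfold ang; linarith
      · have := Real.arctan_mono (show s + sl v w ≤ s + sl v Q by linarith)
        unfold ang; linarith
      · have := arctan_sub_le (x := s + sl v R) (y := s + sl v Q) (by linarith)
        unfold ang
        linarith [sQ.2, sR.1]
  rcases hor with h | h
  · exact nQ (same_L (by linarith) (by linarith) hm h)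
  · exact nR (same_L (by linarith) (by linarith) hm h)

/-- interior points of teeth -/
theorem ZH.ok_int (H : ZH lam b N C) (hk : 2 ≤ k) (hbk : coneAngle k = 64 * b) {s o : ℝ} {j : ℕ}
    (hj : j < N) {p : ℝ × ℝ × ℝ} (hp : p ∈ C j) {Nd : ℕ → Set (ℝ × ℝ)}
    (hNd : ∀ i < N, NodeSet b (C i) (Nd i)) (hok : OKv k b (C j) (s + sg j * b) o p)
    (hR : j + 1 < N → AimR k b s o (sg j) p.1 p.2.1 (C (j + 1)) (Nd (j + 1)))
    (hL : ∀ i, i + 1 = j → AimL k b s o (sg j) p.1 p.2.1 (C i) (Nd i)) :
    OKv k b (Zig lam b N C) s o ((am lam b N j (p.1, p.2.1)).1, (am lam b N j (p.1, p.2.1)).2,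
      p.2.2 + sg j * b) := by
  have h0 := H.h0
  have hb := H.b0
  have hl := H.l0
  have hl1 := H.l1
  have h00 : 0 < hh lam N * lam := mul_pos h0 hl
  have hh0 : (hh lam N : ℂ) ≠ 0 := by exact_mod_cast h0.ne'
  obtain ⟨pb1, pb2, pb3, pb4⟩ := (H.geo _ hj).box _ hp
  have vx := H.am_xi hj hp
  have hvm : am lam b N j (p.1, p.2.1) ∈ pt (Zig lam b N C) := am_mem hj (int_mem hp)
  have hcone : ∀ x y : ℝ × ℝ, SameCone k o (dv s (am lam b N j (p.1, p.2.1)) (am lam b N j x))
      (dv s (am lam b N j (p.1, p.2.1)) (am lam b N j y)) ↔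
      SameCone k o (dv (s + sg j * b) (p.1, p.2.1) x) (dv (s + sg j * b) (p.1, p.2.1) y) := by
    intro x y
    rw [dv_am, dv_am, sameCone_smul h0]
  have hdist : ∀ x : ℝ × ℝ, d2 s (am lam b N j (p.1, p.2.1)) (am lam b N j x) =
      hh lam N ^ 2 * d2 (s + sg j * b) (p.1, p.2.1) x := fun x => d2_am _ _ _ _ _ _ _
  have hnode : ∀ i ≤ N, ∃ τ, ((nd lam b N i).1, (nd lam b N i).2, τ) ∈ Zig lam b N C ∧
      |sl (am lam b N j (p.1, p.2.1)) (nd lam b N i) - τ| ≤ 3 * b := by
    intro i hi
    refine ⟨0, Or.inl ⟨i, hi, rfl⟩, ?_⟩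
    have := H.slope_node (isNode_nd hi) hvm
    rw [sl_comm, sub_zero]
    linarith
  refine ⟨?_, ?_, ?_⟩
  · have := hok.av
    simp only
    rwa [show s + (p.2.2 + sg j * b) = s + sg j * b + p.2.2 by ring]
  · intro w hw hne hvis
    change w ≠ am lam b N j (p.1, p.2.1) at hne
    change Vis k _ s o (am lam b N j (p.1, p.2.1)) w at hvis
    change Cons _ (am lam b N j (p.1, p.2.1)) w ∨ w = (0, 0) ∨ w = (1, 0) ∨
      ∃ τ, (w.1, w.2, τ) ∈ Zig lam b N C ∧ |sl (am lam b N j (p.1, p.2.1)) w - τ| ≤ 3 * b
    rcases lt_or_ge w.1 (xn lam N j) with hw1 | hw1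
    · -- left of the tooth
      rcases Nat.eq_zero_or_pos j with rfl | hj0
      · rw [xn_zero] at hw1
        rcases (H.zbox hw).2.2 with h | h | h
        · exact Or.inr (Or.inl h)
        · exact Or.inr (Or.inr (Or.inl h))
        · exfalso; linarith [h.1]
      · obtain ⟨i, rfl⟩ := Nat.exists_eq_succ_of_ne_zero hj0.ne'
        simp only [Nat.succ_eq_add_one] at *
        rcases lt_or_ge w.1 (xn lam N i) with hw2 | hw2
        · exfalso
          exact H.beyondL hk hbk (by omega) hvm (by linarith) hw hw2 hvis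
        · have hi : i < N := by omega
          obtain ⟨w', hw', rfl⟩ := H.tooth_mem hi hw hw2 hw1.le
          rcases hw' with rfl | rfl | ⟨σ, hw'⟩
          · rw [am_zero]
            exact Or.inr (Or.inr (Or.inr (hnode i hi.le)))
          · rw [am_one]
            exact Or.inr (Or.inr (Or.inr (hnode (i + 1) hj.le)))
          · right; right; right
            exact H.adjL hk hbk hj hp (hNd i hi) (hL i rfl) hw' hvis
    · rcases le_or_gt w.1 (xn lam N (j + 1)) with hw2 | hw2
      · -- inside the tooth
        obtain ⟨w', hw', rfl⟩ := H.tooth_mem hj hw hw1 hw2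
        have hvis' : Vis k (C j) (s + sg j * b) o (p.1, p.2.1) w' := by
          intro x hx hxne hsame
          have h1 := hvis (am lam b N j x) (am_mem hj hx) (fun h => hxne (by
            have h2 : (am lam b N j x).1 = (am lam b N j (p.1, p.2.1)).1 := by rw [h]
            rw [am_fst, am_fst] at h2
            exact (H.geo _ hj).pinj hl hx (int_mem hp) (mul_left_cancel₀ h0.ne' (add_left_cancel h2))))
            ((hcone _ _).2 hsame)
          rw [hdist, hdist] at h1
          exact le_of_mul_le_mul_left h1 (by positivity)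
        have hne' : w' ≠ (p.1, p.2.1) := fun h => hne (by rw [h])
        rcases hok.vis w' hw' hne' hvis' with h | h | h | ⟨τ, h, h'⟩
        · exact Or.inl (H.cons_am hj (int_mem hp) hw' h)
        · rw [h, am_zero]
          exact Or.inr (Or.inr (Or.inr (hnode j hj.le)))
        · rw [h, am_one]
          exact Or.inr (Or.inr (Or.inr (hnode (j + 1) hj)))
        · right; right; right
          refine ⟨τ + sg j * b, am_int hj h, ?_⟩
          have hx : w'.1 ≠ p.1 := fun hx => hne' ((H.geo _ hj).pinj hl hw' (int_mem hp) hx)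
          rw [sl_am lam b N h0.ne' hx]
          rwa [show sl (p.1, p.2.1) w' + sg j * b - (τ + sg j * b) = sl (p.1, p.2.1) w' - τ by ring]
      · -- right of the tooth
        rcases Nat.lt_or_ge (j + 1) N with hj1 | hj1
        · rcases le_or_gt w.1 (xn lam N (j + 2)) with hw3 | hw3
          · obtain ⟨w', hw', rfl⟩ := H.tooth_mem hj1 hw hw2.le hw3
            rcases hw' with rfl | rfl | ⟨σ, hw'⟩
            · rw [am_zero]
              exact Or.inr (Or.inr (Or.inr (hnode (j + 1) hj)))
            · rw [am_one]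
              exact Or.inr (Or.inr (Or.inr (hnode (j + 1 + 1) hj1)))
            · right; right; right
              exact H.adjR hk hbk hj1 hp (hNd _ hj1) (hR hj1) hw' hvis
          · exfalso
            exact H.beyondR hk hbk (j := j) (by omega) hvm (by linarith) hw hw3 hvis
        · have hjN : j + 1 = N := by omega
          rw [hjN, H.xn_N] at hw2
          rcases (H.zbox hw).2.2 with h | h | h
          · exact Or.inr (Or.inl h)
          · exact Or.inr (Or.inr (Or.inl h))
          · exfalso; linarith [h.2]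
  · intro w hw hc x hx hxne hxw hsame
    change Cons _ (am lam b N j (p.1, p.2.1)) w at hc
    change x ≠ am lam b N j (p.1, p.2.1) at hxne
    change SameCone k o (dv s (am lam b N j (p.1, p.2.1)) w)
      (dv s (am lam b N j (p.1, p.2.1)) x) at hsame
    change d2 s (am lam b N j (p.1, p.2.1)) w < d2 s (am lam b N j (p.1, p.2.1)) x
    obtain ⟨w', hw', rfl, hc'⟩ := H.cons_tooth hj hw (by simp only; linarith)
      (by simp only; linarith) hc
    have hedge := (H.geo _ hj).edge (s + sg j * b) _ hp w' hw' hc'
    rcases lt_or_ge x.1 (xn lam N j) with hx1 | hx1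
    · have h1 : d2 s (am lam b N j (p.1, p.2.1)) (am lam b N j w') ≤
          d2 s (am lam b N j (p.1, p.2.1)) (nd lam b N j) := by
        rw [← am_zero, hdist, hdist]
        exact mul_le_mul_of_nonneg_left hedge.1 (by positivity)
      have h2 : d2 s (am lam b N j (p.1, p.2.1)) (nd lam b N j) <
          d2 s (am lam b N j (p.1, p.2.1)) x := by
        apply H.far hvm (isNode_nd hj.le) hx
        have hP : (nd lam b N j).1 = xn lam N j := rfl
        rw [hP]
        nlinarith [vx.1]
      linarith
    · rcases le_or_gt x.1 (xn lam N (j + 1)) with hx2 | hx2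
      · obtain ⟨x', hx', rfl⟩ := H.tooth_mem hj hx hx1 hx2
        rw [hdist, hdist]
        have h1 := hok.cc w' hw' hc' x' hx' (fun h => hxne (by rw [h])) (fun h => hxw (by rw [h]))
          ((hcone _ _).1 hsame)
        exact mul_lt_mul_of_pos_left h1 (by positivity)
      · have h1 : d2 s (am lam b N j (p.1, p.2.1)) (am lam b N j w') ≤
            d2 s (am lam b N j (p.1, p.2.1)) (nd lam b N (j + 1)) := by
          rw [← am_one, hdist, hdist]
          exact mul_le_mul_of_nonneg_left hedge.2 (by positivity)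
        have h2 : d2 s (am lam b N j (p.1, p.2.1)) (nd lam b N (j + 1)) <
            d2 s (am lam b N j (p.1, p.2.1)) x := by
          apply H.far hvm (isNode_nd (i := j + 1) hj) hx
          have hP : (nd lam b N (j + 1)).1 = xn lam N (j + 1) := rfl
          rw [hP]
          exact mul_pos (by linarith [vx.2]) (by linarith)
        linarith

end

end Pool.Agent.Lib.Helper10.YY
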